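import Pool.Agent.H73.RA.Chamber

set_option autoImplicit false
set_option linter.unusedVariables false
set_option linter.unusedSectionVars false

/-! # Divergence of the integrals over chambers, with fixed exponents added -/

namespace Pool.Agent.H73.DA

open Module MeasureTheory Filter Topology Metric ENNReal
open Pool.Agent.H73.RA

variable {ι E : Type} [DecidableEq ι] [NormedAddCommGroup E] [NormedSpace ℝ E] [FiniteDimensional ℝ E]
  [MeasurableSpace E] [BorelSpace E] (μ : Measure E) [μ.IsAddHaarMeasure]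
  (l : ι → E →ₗ[ℝ] ℝ)

/-- **Divergence.** -/
theorem chamber_div2 (mu ka : ι → ℝ) (hmu : ∀ i, 0 ≤ mu i) (hka : ∀ i, 0 ≤ ka i) (A : Finset ι)
    (v0 : E) (h0 : ∀ i ∈ A, l i v0 ≠ 0)
    {Y : Submodule ℝ E} (hKY : IsCompl (Zr l ⊤ A) Y) (hAn : A.Nonempty)
    (hN : 0 < ∑ i ∈ A, mu i) {δ : ℝ} (hδ : 0 < δ) :
    ∃ c1 : ℝ, 0 < c1 ∧ ∀ s : ℝ, -((cdm l A - ∑ i ∈ A, ka i) / ∑ i ∈ A, mu i) < s → s < 0 →
      ∫⁻ x in Box hKY δ, gC l (fun i => ka i - mu i * s) A v0 x ∂μ ≠ ⊤ →
      c1 / (s + (cdm l A - ∑ i ∈ A, ka i) / ∑ i ∈ A, mu i) ≤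
        (∫⁻ x in Box hKY δ, gC l (fun i => ka i - mu i * s) A v0 x ∂μ).toReal := by
  set N : ℝ := ∑ i ∈ A, mu i with hNdef
  set Kp : ℝ := ∑ i ∈ A, ka i with hKp
  set r : ℝ := cdm l A with hr
  set s0 : ℝ := -((r - Kp) / N) with hs0
  have hKl : ∀ i ∈ A, ∀ k ∈ Zr l ⊤ A, l i k = 0 := fun i hi k hk => (mem_Zr.1 hk).2 i hi
  -- bound of the forms on the box
  have hbd : ∀ i : ι, ∃ M : ℝ, 1 ≤ M ∧ ∀ x ∈ Box hKY δ, |l i x| ≤ M := by
    intro i
    obtain ⟨M, hM⟩ := (Box_compact hKY δ).exists_bound_of_continuousOn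
      (f := fun x : E => l i x) (LinearMap.continuous_of_finiteDimensional (l i)).continuousOn
    refine ⟨max 1 M, le_max_left _ _, fun x hx => ?_⟩
    have := hM x hx
    rw [Real.norm_eq_abs] at this
    exact this.trans (le_max_right _ _)
  choose M hM1 hM using hbd
  set c0 : ℝ := ∏ i ∈ A, M i ^ (-(ka i - mu i * s0)) with hc0
  have hc0pos : 0 < c0 := Finset.prod_pos fun i _ => Real.rpow_pos_of_pos (by linarith [hM1 i]) _
  set S : Set E := Shl hKY δ 0 ∩ Cham l A v0 with hS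
  have hSpos := shell_pos μ l A v0 h0 hKY hAn hδ
  have hSub : S ⊆ Box hKY δ := by
    rintro x ⟨⟨h1, -, h2⟩, -⟩
    simp only [pow_zero, mul_one] at h2
    exact ⟨h1, h2⟩
  have hSt : μ S ≠ ⊤ := ((measure_mono hSub).trans_lt (Box_compact hKY δ).measure_lt_top).ne
  have hSr : 0 < (μ S).toReal := ENNReal.toReal_pos hSpos.ne' hSt
  have hSm : MeasurableSet S := (Shl_meas hKY δ 0).inter (Cham_open l A v0).measurableSet
  have hL : 0 < Real.log 2 := Real.log_pos (by norm_num)
  refine ⟨c0 * (μ S).toReal / (N * Real.log 2), by positivity, fun s hs1 hs2 hfin => ?_⟩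
  set t : ι → ℝ := fun i => ka i - mu i * s with ht
  have htsm : tsm t A = Kp - N * s := by
    unfold tsm
    rw [ht, hNdef, Finset.sum_mul, hKp, ← Finset.sum_sub_distrib]
  set J := ∫⁻ x in Box hKY δ, gC l t A v0 x ∂μ with hJ
  set Js := ∫⁻ x in Shl hKY δ 0, gC l t A v0 x ∂μ with hJs
  have hself := box_self μ hKY hδ (gC l t A v0) (gC_meas l t A v0) (ENNReal.ofReal ((2 : ℝ) ^ tsm t A))
    ENNReal.ofReal_ne_top (gC_TT l hKY t A v0 hKl)
  rw [← hJ, ← hJs] at hself
  have hlow : ENNReal.ofReal c0 * μ S ≤ Js := by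
    rw [hJs, ← setLIntegral_const]
    calc ∫⁻ x in S, ENNReal.ofReal c0 ∂μ ≤ ∫⁻ x in S, gC l t A v0 x ∂μ := by
          refine setLIntegral_mono' hSm fun x hx => ?_
          unfold gC
          rw [Set.indicator_of_mem hx.2]
          refine ENNReal.ofReal_le_ofReal ?_
          have hpos : ∀ i ∈ A, 0 < |l i x| := by
            intro i hi
            have := hx.2 i hi
            exact abs_pos.2 (fun h => by rw [h, mul_zero] at this; exact lt_irrefl _ this)
          unfold GG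
          rw [hc0]
          refine Finset.prod_le_prod (fun i _ => Real.rpow_nonneg (by linarith [hM1 i]) _) fun i hi => ?_
          rw [Pi.zero_apply, add_zero, ht]
          have h1 : -(ka i - mu i * s0) ≤ -(ka i - mu i * s) := by
            have := mul_le_mul_of_nonneg_left hs1.le (hmu i)
            linarith
          have h2 : -(ka i - mu i * s) ≤ 0 := by
            have := mul_nonneg (hmu i) (neg_nonneg.2 hs2.le)
            have := hka i
            linarith
          calc M i ^ (-(ka i - mu i * s0)) ≤ M i ^ (-(ka i - mu i * s)) :=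
                Real.rpow_le_rpow_of_exponent_le (hM1 i) h1
            _ ≤ |l i x| ^ (-(ka i - mu i * s)) :=
                Real.rpow_le_rpow_of_nonpos (hpos i hi) (hM i x (hSub hx)) h2
      _ ≤ _ := lintegral_mono_set Set.inter_subset_left
  have hJst : Js ≠ ⊤ := by
    intro h
    rw [h, top_add] at hself
    exact hfin hself
  have hreal : J.toReal = Js.toReal + ((1 / 2 : ℝ) ^ finrank ℝ Y * (2 : ℝ) ^ tsm t A) * J.toReal := by
    have h1 : J.toReal = (Js + ENNReal.ofReal ((1 / 2 : ℝ) ^ finrank ℝ Y) *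
        (ENNReal.ofReal ((2 : ℝ) ^ tsm t A) * J)).toReal := congrArg ENNReal.toReal hself
    rw [ENNReal.toReal_add hJst (ENNReal.mul_ne_top ENNReal.ofReal_ne_top
      (ENNReal.mul_ne_top ENNReal.ofReal_ne_top hfin)), ENNReal.toReal_mul, ENNReal.toReal_mul,
      ENNReal.toReal_ofReal (by positivity), ENNReal.toReal_ofReal (by positivity)] at h1
    linarith
  have hθ : 1 - (1 / 2 : ℝ) ^ finrank ℝ Y * (2 : ℝ) ^ tsm t A ≤
      N * Real.log 2 * (s + (r - Kp) / N) := by
    have h1 : (1 / 2 : ℝ) ^ finrank ℝ Y * (2 : ℝ) ^ tsm t A =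
        Real.exp (-(N * Real.log 2 * (s + (r - Kp) / N))) := by
      have h2 := finrank_compl hKY
      have h3 : (finrank ℝ Y : ℝ) = r := by rw [h2, hr]; rfl
      rw [one_div, inv_pow, ← Real.rpow_natCast, ← Real.rpow_neg (by norm_num),
        ← Real.rpow_add (by norm_num), h3, htsm, Real.rpow_def_of_pos (by norm_num)]
      congr 1
      field_simp
      ring
    rw [h1]
    have := Real.add_one_le_exp (-(N * Real.log 2 * (s + (r - Kp) / N)))
    linarith
  have hlow' : c0 * (μ S).toReal ≤ Js.toReal := by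
    have h1 := ENNReal.toReal_mono hJst hlow
    rwa [ENNReal.toReal_mul, ENNReal.toReal_ofReal (by positivity)] at h1
  have hJ0 : 0 ≤ J.toReal := ENNReal.toReal_nonneg
  have hsp : 0 < s + (r - Kp) / N := by
    rw [hs0] at hs1
    linarith
  rw [div_div, div_le_iff₀ (by positivity)]
  calc c0 * (μ S).toReal ≤ Js.toReal := hlow'
    _ = J.toReal * (1 - (1 / 2 : ℝ) ^ finrank ℝ Y * (2 : ℝ) ^ tsm t A) := by linarith
    _ ≤ J.toReal * (N * Real.log 2 * (s + (r - Kp) / N)) := mul_le_mul_of_nonneg_left hθ hJ0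

end Pool.Agent.H73.DA
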