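import Pool.Agent.H73.DA.Light
import Pool.Agent.H90.DA.Comb

set_option autoImplicit false
set_option linter.unusedVariables false
set_option linter.unusedSectionVars false

/-! # Heavy flats in rank three, with at most one heavy element; light chambers -/

namespace Pool.Agent.H73.DA

open MvPolynomial Module MeasureTheory Filter Topology Metric
open Pool.Agent.H73.RA
open Pool.Agent.H628R4.TP (IsBFunction)

section
variable {κ : Type} [DecidableEq κ] {r : Finset κ → ℕ}

/-- at most one weight above one: the heavy sets have a common element -/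
theorem light1 (hr : RankFn r) {A : Finset κ} (hA : ∀ x ∈ A, ∀ y ∈ A, x ≠ y → 2 ≤ r {x, y})
    (hne : A.Nonempty) (h3 : r A ≤ 3) (W : κ → ℝ) (h0 : ∀ x ∈ A, 0 ≤ W x)
    (h1 : ∀ x ∈ A, ∀ y ∈ A, 1 < W x → 1 < W y → x = y) (hr1 : ∀ x ∈ A, 1 ≤ r {x})
    (hW : ∑ x ∈ A, W x = r A) :
    ∃ h ∈ A, ∀ B, ClosedIn r A B → B ≠ A → (r B : ℝ) < ∑ x ∈ B, W x → h ∈ B := by
  by_cases hall : ∀ x ∈ A, W x ≤ 1
  · exact Pool.Agent.H90.DA.light hr hA hne h3 W h0 hall hW
  · push Not at hall
    obtain ⟨x0, hx0, hW0⟩ := hall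
    refine ⟨x0, hx0, fun B hB hBA hh => ?_⟩
    by_contra hn
    have hle : ∀ x ∈ B, W x ≤ 1 := by
      intro x hx
      by_contra hc
      push Not at hc
      have := h1 x (hB.1 hx) x0 hx0 hc hW0
      rw [this] at hx
      exact hn hx
    have hlt : r B < r A := by
      by_contra hcon
      exact hBA (Pool.Agent.H90.DA.closed_eq hr hB (Finset.Subset.refl _) hB.1 (by omega))
    have hcard : ∑ x ∈ B, W x ≤ B.card := by
      calc ∑ x ∈ B, W x ≤ ∑ x ∈ B, (1 : ℝ) := Finset.sum_le_sum fun x hx => hle x hx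
        _ = B.card := by simp
    rcases Nat.lt_or_ge (r B) 2 with h2 | h2
    · have hc := Pool.Agent.H90.DA.card_le_one hr hA hB.1 (by omega)
      rcases Nat.lt_or_ge B.card 1 with hc0 | hc1
      · have h4 : (B.card : ℝ) = 0 := by
          have : B.card = 0 := by omega
          rw [this]; simp
        have : (0 : ℝ) ≤ r B := by positivity
        linarith
      · obtain ⟨x, rfl⟩ := Finset.card_eq_one.1 (le_antisymm hc hc1)
        have h4 : (1 : ℝ) ≤ r {x} := by exact_mod_cast hr1 x (hB.1 (Finset.mem_singleton_self x))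
        simp only [Finset.card_singleton, Nat.cast_one] at hcard
        linarith
    · have hB2 : (2 : ℝ) ≤ r B := by exact_mod_cast h2
      have hA3 : (r A : ℝ) ≤ 3 := by exact_mod_cast h3
      have h5 : ∑ x ∈ insert x0 B, W x ≤ ∑ x ∈ A, W x :=
        Finset.sum_le_sum_of_subset_of_nonneg (Finset.insert_subset hx0 hB.1) fun x hx _ => h0 x hx
      rw [Finset.sum_insert hn, hW] at h5
      linarith

end

section
variable {ι σ : Type} [DecidableEq ι] [DecidableEq σ] {r : Finset (ι ⊕ σ) → ℕ}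

/-- at most one heavy element: the heavy sets have a common element -/
theorem comb_one (hr : RankFn r) (m : ι → ℕ) (w a : σ → ℕ) (A : Finset (ι ⊕ σ))
    (hw : ∀ j, 0 < w j) (hpair : ∀ x ∈ A, ∀ y ∈ A, x ≠ y → 2 ≤ r {x, y})
    (hone : ∀ x ∈ A, 1 ≤ r {x}) (hne : A.Nonempty) (h3 : r A ≤ 3) (hN : 0 < NN m w a A)
    (hnu0 : 0 ≤ nu r w A)
    (hheavy : ∀ x ∈ A, ∀ y ∈ A, nu r w {x} * NN m w a A < nu r w A * NN m w a {x} →
      nu r w {y} * NN m w a A < nu r w A * NN m w a {y} → x = y) :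
    ∃ h ∈ A, ∀ B, ClosedIn r A B → B ≠ A →
      nu r w B * NN m w a A < nu r w A * NN m w a B → h ∈ B := by
  set T : ι ⊕ σ → ℝ := Sum.elim (fun _ : ι => (0 : ℝ)) (fun j => 1 - 1 / (w j : ℝ)) with hT
  set U : ι ⊕ σ → ℝ := Sum.elim (fun i => (m i : ℝ)) (fun j => (a j : ℝ) / (w j : ℝ)) with hU
  have hs1 : ∀ B, NN m w a B = ∑ x ∈ B, U x := fun B => rfl
  have hs2 : ∀ B, nu r w B = (r B : ℝ) - ∑ x ∈ B, T x := fun B => rfl
  have hwr : ∀ j, (1 : ℝ) ≤ w j := fun j => by exact_mod_cast hw j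
  have hT0 : ∀ x, 0 ≤ T x := by
    rintro (i | j)
    · simp [hT]
    · have h1 := hwr j
      have h2 : 1 / (w j : ℝ) ≤ 1 := by rw [div_le_one (by linarith)]; exact h1
      simp only [hT, Sum.elim_inr]; linarith
  have hU0 : ∀ x, 0 ≤ U x := by
    rintro (i | j)
    · simp [hU]
    · simp only [hU, Sum.elim_inr]; positivity
  set α : ℝ := nu r w A / NN m w a A with hα
  have hα0 : 0 ≤ α := div_nonneg hnu0 hN.le
  have hαN : α * NN m w a A = nu r w A := by
    rw [hα]; field_simp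
  have hheq : ∀ B, nu r w B * NN m w a A < nu r w A * NN m w a B ↔
      (r B : ℝ) < ∑ x ∈ B, (T x + α * U x) := by
    intro B
    rw [Finset.sum_add_distrib, ← Finset.mul_sum, ← hs1, hs2 B]
    constructor
    · intro hB
      have h1 : ((r B : ℝ) - ∑ x ∈ B, T x) * NN m w a A < (α * NN m w a B) * NN m w a A := by
        rw [← hαN] at hB
        linarith
      have h2 := lt_of_mul_lt_mul_right h1 hN.le
      linarith
    · intro hB
      have h1 : (r B : ℝ) - ∑ x ∈ B, T x < α * NN m w a B := by linarith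
      have h2 := mul_lt_mul_of_pos_right h1 hN
      rw [← hαN]
      linarith
  have htot : ∑ x ∈ A, (T x + α * U x) = r A := by
    rw [Finset.sum_add_distrib, ← Finset.mul_sum, ← hs1, hαN, hs2]
    ring
  have hsing : ∀ x ∈ A, 1 < T x + α * U x →
      nu r w {x} * NN m w a A < nu r w A * NN m w a {x} := by
    intro x hx h1
    rw [hheq, Finset.sum_singleton]
    have h2 := hr.card {x}
    rw [Finset.card_singleton] at h2
    have h4 : ((r {x} : ℕ) : ℝ) ≤ 1 := by exact_mod_cast h2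
    linarith
  obtain ⟨h, hh, hB⟩ := light1 hr hpair hne h3 (fun x => T x + α * U x)
    (fun x _ => add_nonneg (hT0 x) (mul_nonneg hα0 (hU0 x)))
    (fun x hx y hy h1 h2 => hheavy x hx y hy (hsing x hx h1) (hsing y hy h2)) hone htot
  exact ⟨h, hh, fun B hBc hBA hBh => hB B hBc hBA ((hheq B).1 hBh)⟩

end

end Pool.Agent.H73.DA
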