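import Pool.Agent.H74A.Root

set_option autoImplicit false

/-! # Statements of the parts of the project on diagonal arrangements (helper73)

`f(y) = ∏_j y_j ^ (a_j) ∏_i (∑_j c_ij y_j ^ (w_j) + e_i) ^ (m_i)`, real `c`, `e`: the strong monodromy
conjecture. -/

namespace Pool.Agent.H73.DA

open MvPolynomial MeasureTheory Filter Topology
open Pool.Agent.H628R4.TP (IsBFunction)
open Pool.Agent.H74A (ev Bdry Test)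

/-- `y ↦ (y_j ^ (w_j))_j` -/
def pw {σ : Type} (w : σ → ℕ) (y : σ → ℝ) : σ → ℝ := fun j => y j ^ w j

/-- STAR: roots of `b` from integrals over `{y_j > 0, j ∈ S}`, if `f` is invariant under
`y_j ↦ ζ y_j`, `ζ ^ (w_j) = 1`, `w_j ≥ 2`, for `j ∈ S`, and the test function is a function of the
`y_j ^ (w_j)`. (`f` need not vanish on the faces `y_j = 0`, `j ∈ S`.) -/
def S_STAR : Prop :=
  ∀ (n : ℕ) (f : MvPolynomial (Fin (n + 1)) ℂ) (w : Fin (n + 1) → ℕ) (S : Finset (Fin (n + 1))),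
    (∀ j, 0 < w j) → (∀ j ∈ S, 2 ≤ w j) →
    (∀ (z : Fin (n + 1) → ℂ), ∀ j ∈ S, ∀ ζ : ℂ, ζ ^ w j = 1 →
      eval (Function.update z j (ζ * z j)) f = eval z f) →
    ∀ Ω : Set (Fin (n + 1) → ℝ), Bdry f Ω →
    ∀ F : (Fin (n + 1) → ℝ) → ℝ, (∀ x, ev f x = (F x : ℂ)) →
    (∀ x ∈ Ω, (∀ j ∈ S, 0 < x j) → 0 < F x) →
    ∀ b : Polynomial ℂ, IsBFunction f b →
    ∀ Kx : Set (Fin (n + 1) → ℝ), IsCompact Kx →
    ∀ ρ : (Fin (n + 1) → ℝ) → ℝ, Test Kx (fun x => (ρ x : ℂ)) →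
    ∀ s₀ : ℝ,
    (∀ s, s₀ < s →
      IntegrableOn (fun y => F y ^ s) ((Ω ∩ {y | ∀ j ∈ S, 0 < y j}) ∩ pw w ⁻¹' Kx)) →
    (∀ M δ : ℝ, 0 < δ → ∃ s, s₀ < s ∧ s < s₀ + δ ∧
      M ≤ ∫ y in Ω ∩ {y | ∀ j ∈ S, 0 < y j}, F y ^ s * ρ (pw w y)) →
    b.eval (s₀ : ℂ) = 0

/-- IBP: integration by parts on `{x_i > 0, i ∈ S}`. -/
def S_IBP : Prop :=
  ∀ (n : ℕ) (S : Finset (Fin (n + 1))) (j : Fin (n + 1)) (u : (Fin (n + 1) → ℝ) → ℂ)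
    (u' : (Fin (n + 1) → ℝ) → (Fin (n + 1) → ℝ) →L[ℝ] ℂ),
    (∀ x, HasFDerivAt u (u' x) x) → HasCompactSupport u →
    Integrable (fun x => u' x (Pi.single j 1)) →
    (j ∈ S → ∀ x, x j = 0 → u x = 0) →
    ∫ x in {x : Fin (n + 1) → ℝ | ∀ i ∈ S, 0 < x i}, u' x (Pi.single j 1) = 0

/-- PUSH: the substitution `x_j = y_j ^ (w_j)` on `y_j > 0`, `j ∈ T`. -/
def S_PUSH : Prop :=
  ∀ (σ : Type) [Fintype σ] [DecidableEq σ] (w : σ → ℕ) (T : Finset σ), (∀ j, 0 < w j) →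
    (∀ j, j ∉ T → w j = 1) → ∀ g : (σ → ℝ) → ENNReal, Measurable g →
    ∫⁻ y in {y : σ → ℝ | ∀ j ∈ T, 0 < y j}, g (pw w y) =
      ∫⁻ x in {x : σ → ℝ | ∀ j ∈ T, 0 < x j},
        g x * ∏ j ∈ T, ENNReal.ofReal ((1 / (w j : ℝ)) * x j ^ ((1 : ℝ) / (w j : ℝ) - 1))

section comb

variable {κ : Type} [DecidableEq κ]

/-- rank functions of matroids -/
structure RankFn (r : Finset κ → ℕ) : Prop where
  mono : ∀ B C, B ⊆ C → r B ≤ r C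
  sub : ∀ B C, r (B ∪ C) + r (B ∩ C) ≤ r B + r C
  card : ∀ B, r B ≤ B.card

/-- closed subsets of `A` -/
def ClosedIn (r : Finset κ → ℕ) (A B : Finset κ) : Prop :=
  B ⊆ A ∧ ∀ i ∈ A, r (insert i B) = r B → i ∈ B

end comb

/-- `N_B = ∑_{i ∈ B} m_i + ∑_{j ∈ B} a_j / w_j` -/
noncomputable def NN {ι σ : Type} (m : ι → ℕ) (w a : σ → ℕ) (B : Finset (ι ⊕ σ)) : ℝ :=
  ∑ x ∈ B, Sum.elim (fun i => (m i : ℝ)) (fun j => (a j : ℝ) / (w j : ℝ)) x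

/-- `ν_B = r(B) - ∑_{j ∈ B} (1 - 1 / w_j)` -/
noncomputable def nu {ι σ : Type} (r : Finset (ι ⊕ σ) → ℕ) (w : σ → ℕ) (B : Finset (ι ⊕ σ)) : ℝ :=
  (r B : ℝ) - ∑ x ∈ B, Sum.elim (fun _ : ι => (0 : ℝ)) (fun j => 1 - 1 / (w j : ℝ)) x

/-- COMB: in rank at most three all heavy flats have a common element. -/
def S_COMB : Prop :=
  ∀ (ι σ : Type) [DecidableEq ι] [DecidableEq σ] (r : Finset (ι ⊕ σ) → ℕ), RankFn r →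
    ∀ (w a : σ → ℕ) (A : Finset (ι ⊕ σ)), (∀ j, 0 < w j) →
    (∀ j, Sum.inr j ∈ A → w j = 1 → a j = 1) → (∀ j, a j ≤ 1) →
    (∀ B, B ⊆ A → (∀ x ∈ B, ∃ j : σ, x = Sum.inr j) → r B = B.card) →
    (∀ x ∈ A, ∀ y ∈ A, x ≠ y → 2 ≤ r {x, y}) → (∀ x ∈ A, 1 ≤ r {x}) →
    A.Nonempty → (∀ B, B ⊆ A → B.Nonempty → B ≠ A → r A < r B + r (A \ B)) → r A ≤ 3 →
    0 < NN (fun _ => 1) w a A →
    ∃ h ∈ A, ∀ B, ClosedIn r A B → B ≠ A →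
      nu r w B * NN (fun _ => 1) w a A < nu r w A * NN (fun _ => 1) w a B → h ∈ B

end Pool.Agent.H73.DA
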