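import Pool.Agent.H73.DA.Chamber2
import Pool.Agent.H73.DA.Stm
import Pool.Agent.H73.RA.Root

set_option autoImplicit false
set_option linter.unusedVariables false
set_option linter.unusedSectionVars false

/-! # Roots of b-functions of products of diagonal polynomials from light chambers -/

namespace Pool.Agent.H73.DA

open MvPolynomial Module MeasureTheory Filter Topology Metric
open Pool.Agent.H73.RA
open Pool.Agent.H628R4.TP (IsBFunction)
open Pool.Agent.H74A (ev Bdry Test)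

section
variable {σ : Type} [Fintype σ] [DecidableEq σ] {ι : Type} [Fintype ι] [DecidableEq ι]

/-- `∏_j y_j ^ (a_j) ∏_i (∑_j c_ij y_j ^ (w_j) + e_i) ^ (m_i)` -/
noncomputable def diaP (c : ι → σ → ℝ) (e : ι → ℝ) (m : ι → ℕ) (w a : σ → ℕ) : MvPolynomial σ ℂ :=
  (∏ j, X j ^ a j) * ∏ i, (∑ j, C ((c i j : ℝ) : ℂ) * X j ^ w j + C ((e i : ℝ) : ℂ)) ^ m i

/-- the linear forms `c_i` and `x_j` -/
noncomputable def LL (c : ι → σ → ℝ) : ι ⊕ σ → (σ → ℝ) →ₗ[ℝ] ℝ :=
  Sum.elim (fun i => lf (c i)) (fun j => LinearMap.proj j)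

/-- the multiplicities -/
noncomputable def muf (m : ι → ℕ) (w a : σ → ℕ) : ι ⊕ σ → ℝ :=
  Sum.elim (fun i => (m i : ℝ)) (fun j => (a j : ℝ) / (w j : ℝ))

/-- the fixed exponents -/
noncomputable def kaf (ι : Type) {σ : Type} (w : σ → ℕ) : ι ⊕ σ → ℝ :=
  Sum.elim (fun _ => (0 : ℝ)) (fun j => 1 - 1 / (w j : ℝ))

theorem ev_diaP (c : ι → σ → ℝ) (e : ι → ℝ) (m : ι → ℕ) (w a : σ → ℕ) (y : σ → ℝ) :
    ev (diaP c e m w a) y =
      (((∏ j, y j ^ a j) * ∏ i, (lf (c i) (pw w y) + e i) ^ m i : ℝ) : ℂ) := by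
  unfold diaP ev pw
  simp only [map_mul, map_prod, map_pow, map_add, map_sum, eval_C, eval_X, lf_apply]
  push_cast
  rfl

theorem inv_dia (c : ι → σ → ℝ) (e : ι → ℝ) (m : ι → ℕ) (w a : σ → ℕ) (z : σ → ℂ) (j : σ)
    (ha : a j = 0) (ζ : ℂ) (hζ : ζ ^ w j = 1) :
    eval (Function.update z j (ζ * z j)) (diaP c e m w a) = eval z (diaP c e m w a) := by
  unfold diaP
  simp only [map_mul, map_prod, map_pow, map_add, map_sum, eval_C, eval_X]
  have h1 : ∀ k, Function.update z j (ζ * z j) k ^ a k = z k ^ a k := by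
    intro k
    by_cases hk : k = j
    · subst hk
      rw [ha, pow_zero, pow_zero]
    · rw [Function.update_of_ne hk]
  have h2 : ∀ k, Function.update z j (ζ * z j) k ^ w k = z k ^ w k := by
    intro k
    by_cases hk : k = j
    · subst hk
      rw [Function.update_self, mul_pow, hζ, one_mul]
    · rw [Function.update_of_ne hk]
  simp only [h1, h2]

theorem cont_pw (w : σ → ℕ) : Continuous (pw w) :=
  continuous_pi fun j => (continuous_apply j).pow _

theorem cpt_pw (w : σ → ℕ) (hw : ∀ j, 0 < w j) {K : Set (σ → ℝ)} (hK : IsCompact K) :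
    IsCompact (pw w ⁻¹' K) := by
  obtain ⟨R, hR⟩ := hK.isBounded.subset_closedBall 0
  refine (isCompact_closedBall (0 : σ → ℝ) (1 + |R|)).of_isClosed_subset
    (hK.isClosed.preimage (cont_pw w)) ?_
  intro y hy
  rw [mem_closedBall_zero_iff, pi_norm_le_iff_of_nonneg (by positivity)]
  intro j
  have h1 := hR hy
  rw [mem_closedBall_zero_iff] at h1
  have h2 : ‖y j ^ w j‖ ≤ R := (norm_le_pi_norm (pw w y) j).trans h1
  rw [norm_pow] at h2
  by_contra hcon
  push Not at hcon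
  have h3 : 1 ≤ ‖y j‖ := by linarith [abs_nonneg R]
  have h4 : ‖y j‖ ≤ ‖y j‖ ^ w j := le_self_pow₀ h3 (hw j).ne'
  linarith [le_abs_self R]

theorem prod_split (A : Finset (ι ⊕ σ)) (g : ι ⊕ σ → ℝ) :
    ∏ k ∈ A, g k = (∏ i ∈ A.toLeft, g (Sum.inl i)) * ∏ j ∈ A.toRight, g (Sum.inr j) := by
  conv_lhs => rw [← Finset.toLeft_disjSum_toRight (u := A)]
  rw [Finset.prod_disjSum]

end

set_option maxHeartbeats 1000000 in
/-- **Roots from light chambers.** -/
theorem root_diag (hSTAR : S_STAR) (hPUSH : S_PUSH) {n : ℕ} {ι : Type} [Fintype ι] [DecidableEq ι]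
    (c : ι → Fin (n + 1) → ℝ) (e : ι → ℝ) (m : ι → ℕ) (w a : Fin (n + 1) → ℕ)
    (hm : ∀ i, 0 < m i) (hw : ∀ j, 0 < w j) (p v0 : Fin (n + 1) → ℝ)
    (A : Finset (ι ⊕ Fin (n + 1)))
    (hAi : ∀ i, Sum.inl i ∈ A ↔ lf (c i) p + e i = 0)
    (hAj : ∀ j, Sum.inr j ∈ A ↔ (w j ≠ 1 ∨ a j ≠ 0) ∧ p j = 0)
    (hp : ∀ j, (w j ≠ 1 ∨ a j ≠ 0) → 0 ≤ p j)
    (h0 : ∀ k ∈ A, LL c k v0 ≠ 0) (hv : ∀ j, Sum.inr j ∈ A → 0 < v0 j) (hAn : A.Nonempty)
    (hN : 0 < ∑ k ∈ A, muf m w a k)
    (hν : 0 < cdm (LL c) A - ∑ k ∈ A, kaf ι w k)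
    (hgood : ∀ x, (∀ k ∈ A, 0 ≤ LL c k v0 * LL c k x) → (∃ k ∈ A, LL c k x ≠ 0) →
      ∀ B, B ⊆ A.filter (fun k => LL c k x = 0) → B.Nonempty →
        0 < cdm (LL c) B - ∑ k ∈ B, kaf ι w k ∧
        (cdm (LL c) A - ∑ k ∈ A, kaf ι w k) * ∑ k ∈ B, muf m w a k ≤
          (cdm (LL c) B - ∑ k ∈ B, kaf ι w k) * ∑ k ∈ A, muf m w a k)
    (b : Polynomial ℂ) (hb : IsBFunction (diaP c e m w a) b) :
    b.eval ((-((cdm (LL c) A - ∑ k ∈ A, kaf ι w k) / ∑ k ∈ A, muf m w a k) : ℝ) : ℂ) = 0 := by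
  classical
  set l : ι ⊕ Fin (n + 1) → (Fin (n + 1) → ℝ) →ₗ[ℝ] ℝ := LL c with hl
  have hli : ∀ i, l (Sum.inl i) = lf (c i) := fun i => rfl
  have hlj : ∀ j x, l (Sum.inr j) x = x j := fun j x => rfl
  have hmu : ∀ k, 0 ≤ muf m w a k := by
    rintro (i | j)
    · exact Nat.cast_nonneg _
    · exact div_nonneg (Nat.cast_nonneg _) (Nat.cast_nonneg _)
  have hka : ∀ k, 0 ≤ kaf ι w k := by
    rintro (i | j)
    · exact le_refl _
    · change (0 : ℝ) ≤ 1 - 1 / (w j : ℝ)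
      have h1 : (1 : ℝ) ≤ w j := by exact_mod_cast hw j
      have h2 : 1 / (w j : ℝ) ≤ 1 := by
        rw [div_le_one (by linarith)]; exact h1
      linarith
  set N : ℝ := ∑ k ∈ A, muf m w a k with hNdef
  set ν : ℝ := cdm l A - ∑ k ∈ A, kaf ι w k with hνdef
  obtain ⟨k0, hk0⟩ := hAn
  have hKtop : Zr l ⊤ A ≠ ⊤ := by
    intro h
    have h1 : v0 ∈ Zr l ⊤ A := by rw [h]; exact Submodule.mem_top
    exact h0 k0 hk0 ((mem_Zr.1 h1).2 k0 hk0)
  obtain ⟨Y, hKY⟩ := Submodule.exists_isCompl (Zr l ⊤ A)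
  set s0 : ℝ := -(ν / N) with hs0
  have hs00 : s0 < 0 := by
    have : 0 < ν / N := by positivity
    rw [hs0]; linarith
  set T : Finset (Fin (n + 1)) := Finset.univ.filter (fun j => w j ≠ 1 ∨ a j ≠ 0) with hT
  set S : Finset (Fin (n + 1)) := Finset.univ.filter (fun j => w j ≠ 1 ∧ a j = 0) with hS
  have hmemT : ∀ j, j ∈ T ↔ (w j ≠ 1 ∨ a j ≠ 0) := fun j => by rw [hT]; simp
  have hmemS : ∀ j, j ∈ S ↔ (w j ≠ 1 ∧ a j = 0) := fun j => by rw [hS]; simp
  set Al := A.toLeft with hAl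
  set Ar := A.toRight with hAr
  have hmemAl : ∀ i, i ∈ Al ↔ Sum.inl i ∈ A := fun i => Finset.mem_toLeft
  have hmemAr : ∀ j, j ∈ Ar ↔ Sum.inr j ∈ A := fun j => Finset.mem_toRight
  have hArT : Ar ⊆ T := fun j hj => (hmemT j).2 (((hAj j).1 ((hmemAr j).1 hj)).1)
  -- the signs
  set sg : ι → ℝ := fun i => if Sum.inl i ∈ A then lf (c i) v0 else lf (c i) p + e i with hsg
  have hsgA : ∀ i, Sum.inl i ∈ A → sg i = lf (c i) v0 := fun i hi => by rw [hsg]; simp only [if_pos hi]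
  have hsgN : ∀ i, Sum.inl i ∉ A → sg i = lf (c i) p + e i :=
    fun i hi => by rw [hsg]; simp only [if_neg hi]
  have hsg0 : ∀ i, sg i ≠ 0 := by
    intro i
    by_cases hi : Sum.inl i ∈ A
    · rw [hsgA i hi]; exact h0 _ hi
    · rw [hsgN i hi]
      exact fun h => hi ((hAi i).2 h)
  set κ : ℝ := ∏ i, sg i ^ m i with hκ
  have hκ0 : κ ≠ 0 := Finset.prod_ne_zero_iff.2 fun i _ => pow_ne_zero _ (hsg0 i)
  have hb' : IsBFunction (C (κ : ℂ) * diaP c e m w a) b :=
    bfun_scale _ _ (by exact_mod_cast hκ0) b hb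
  set F : (Fin (n + 1) → ℝ) → ℝ :=
    fun y => (∏ j, y j ^ a j) * ∏ i, (sg i * (lf (c i) (pw w y) + e i)) ^ m i with hFdef
  have hF : ∀ y, ev (C (κ : ℂ) * diaP c e m w a) y = (F y : ℂ) := by
    intro y
    rw [Pool.Agent.H74A.ev_mul, Pool.Agent.H74A.ev_C, ev_diaP, hFdef, hκ, ← Complex.ofReal_mul]
    congr 1
    simp only [mul_pow, Finset.prod_mul_distrib]
    ring
  have hcf : ∀ i, Continuous fun y : Fin (n + 1) → ℝ => sg i * (lf (c i) (pw w y) + e i) := fun i =>
    continuous_const.mul ((cont_f (c i) (e i)).comp (cont_pw w))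
  have hFc : Continuous F := by
    rw [hFdef]
    exact (continuous_finsetProd _ fun j _ => (continuous_apply j).pow _).mul
      (continuous_finsetProd _ fun i _ => (hcf i).pow _)
  set Ω : Set (Fin (n + 1) → ℝ) :=
    {y | (∀ i, 0 < sg i * (lf (c i) (pw w y) + e i)) ∧ ∀ j, a j ≠ 0 → 0 < y j} with hΩ
  have hΩo : IsOpen Ω := by
    have h : Ω = (⋂ i, {y | 0 < sg i * (lf (c i) (pw w y) + e i)}) ∩
        ⋂ j, {y | a j ≠ 0 → 0 < y j} := by
      ext y
      simp [hΩ]
    rw [h]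
    refine (isOpen_iInter_of_finite fun i => isOpen_lt continuous_const (hcf i)).inter
      (isOpen_iInter_of_finite fun j => ?_)
    by_cases hj : a j = 0
    · simp [hj]
    · simp only [hj, ne_eq, not_false_eq_true, forall_const]
      exact isOpen_lt continuous_const (continuous_apply j)
  have hΩm : MeasurableSet Ω := hΩo.measurableSet
  have hpos : ∀ y ∈ Ω, (∀ j ∈ S, 0 < y j) → 0 < F y := by
    intro y hy _
    refine mul_pos (Finset.prod_pos fun j _ => ?_) (Finset.prod_pos fun i _ => pow_pos (hy.1 i) _)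
    by_cases hj : a j = 0
    · rw [hj, pow_zero]; exact one_pos
    · exact pow_pos (hy.2 j hj) _
  have hBdry : Bdry (C (κ : ℂ) * diaP c e m w a) Ω := by
    refine ⟨hΩo, fun y hy => ?_⟩
    rw [hF, Complex.ofReal_eq_zero]
    have hcl1 : ∀ i, 0 ≤ sg i * (lf (c i) (pw w y) + e i) := by
      intro i
      have h1 : closure Ω ⊆ {y | 0 ≤ sg i * (lf (c i) (pw w y) + e i)} :=
        closure_minimal (fun z hz => (hz.1 i).le) (isClosed_le continuous_const (hcf i))
      exact h1 hy.1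
    have hcl2 : ∀ j, a j ≠ 0 → 0 ≤ y j := by
      intro j hj
      have h1 : closure Ω ⊆ {y | 0 ≤ y j} :=
        closure_minimal (fun z hz => (hz.2 j hj).le) (isClosed_le continuous_const (continuous_apply j))
      exact h1 hy.1
    have hnot : y ∉ Ω := fun h => hy.2 (by rwa [hΩo.interior_eq])
    rw [hFdef]
    by_cases hc1 : ∀ i, 0 < sg i * (lf (c i) (pw w y) + e i)
    · have h2 : ∃ j, a j ≠ 0 ∧ ¬ 0 < y j := by
        by_contra hcon
        push Not at hcon
        exact hnot ⟨hc1, hcon⟩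
      obtain ⟨j, hj, hj2⟩ := h2
      have h3 : y j = 0 := le_antisymm (not_lt.1 hj2) (hcl2 j hj)
      have h4 : ∏ j, y j ^ a j = 0 := Finset.prod_eq_zero (Finset.mem_univ j) (by rw [h3, zero_pow hj])
      simp only [h4, zero_mul]
    · push Not at hc1
      obtain ⟨i, hi⟩ := hc1
      have h3 : sg i * (lf (c i) (pw w y) + e i) = 0 := le_antisymm hi (hcl1 i)
      have h4 : ∏ i, (sg i * (lf (c i) (pw w y) + e i)) ^ m i = 0 :=
        Finset.prod_eq_zero (Finset.mem_univ i) (by rw [h3, zero_pow (hm i).ne'])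
      simp only [h4, mul_zero]
  set P : Set (Fin (n + 1) → ℝ) := {y | ∀ j ∈ S, 0 < y j} with hP
  set PT : Set (Fin (n + 1) → ℝ) := {y | ∀ j ∈ T, 0 < y j} with hPT
  have hopen : ∀ U : Finset (Fin (n + 1)), IsOpen {y : Fin (n + 1) → ℝ | ∀ j ∈ U, 0 < y j} := by
    intro U
    have h : {y : Fin (n + 1) → ℝ | ∀ j ∈ U, 0 < y j} = ⋂ j ∈ U, {y | 0 < y j} := by
      ext y; simp
    rw [h]
    exact isOpen_biInter_finset fun j _ => isOpen_lt continuous_const (continuous_apply j)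
  have hPm : MeasurableSet P := (hopen S).measurableSet
  have hPTm : MeasurableSet PT := (hopen T).measurableSet
  set Ox : Set (Fin (n + 1) → ℝ) := {x | ∀ i, 0 < sg i * (lf (c i) x + e i)} with hOx
  have hOxo : IsOpen Ox := by
    have h : Ox = ⋂ i, {x | 0 < sg i * (lf (c i) x + e i)} := by
      ext x; simp [hOx]
    rw [h]
    exact isOpen_iInter_of_finite fun i =>
      isOpen_lt continuous_const (continuous_const.mul (cont_f _ _))
  have hΩP : Ω ∩ P = PT ∩ pw w ⁻¹' Ox := by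
    ext y
    constructor
    · rintro ⟨⟨h1, h2⟩, h3⟩
      refine ⟨fun j hj => ?_, h1⟩
      by_cases ha : a j = 0
      · have h4 := (hmemT j).1 hj
        exact h3 j ((hmemS j).2 ⟨h4.resolve_right (fun h => h ha), ha⟩)
      · exact h2 j ha
    · rintro ⟨h1, h2⟩
      exact ⟨⟨h2, fun j hj => h1 j ((hmemT j).2 (Or.inr hj))⟩,
        fun j hj => h1 j ((hmemT j).2 (Or.inl ((hmemS j).1 hj).1))⟩
  -- in terms of `x`
  set Fx : (Fin (n + 1) → ℝ) → ℝ := fun x => (∏ j ∈ T, x j ^ ((a j : ℝ) / (w j : ℝ))) *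
    ∏ i, (sg i * (lf (c i) x + e i)) ^ m i with hFx
  have hFFx : ∀ y ∈ PT, F y = Fx (pw w y) := by
    intro y hy
    rw [hFdef, hFx]
    simp only
    congr 1
    rw [← Finset.prod_subset (Finset.subset_univ T)]
    · refine Finset.prod_congr rfl fun j hj => ?_
      have hw0 : (w j : ℝ) ≠ 0 := by exact_mod_cast (hw j).ne'
      unfold pw
      rw [← Real.rpow_natCast (y j) (w j), ← Real.rpow_mul (hy j hj).le, mul_div_cancel₀ _ hw0,
        Real.rpow_natCast]
    · intro j _ hj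
      have h1 : a j = 0 := by
        by_contra h
        exact hj ((hmemT j).2 (Or.inr h))
      rw [h1, pow_zero]
  have hFxm : Measurable Fx := by
    rw [hFx]
    refine (Finset.measurable_prod _ fun j _ => (measurable_pi_apply j).pow_const _).mul
      (Finset.measurable_prod _ fun i _ => ?_)
    exact ((continuous_const.mul (cont_f (c i) (e i))).measurable).pow_const _
  -- the exponents
  set t : ℝ → ι ⊕ Fin (n + 1) → ℝ := fun s k => kaf ι w k - muf m w a k * s with ht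
  have htsm : ∀ s B, tsm (t s) B = (∑ k ∈ B, kaf ι w k) - s * ∑ k ∈ B, muf m w a k := by
    intro s B
    unfold tsm
    rw [ht, Finset.sum_sub_distrib, Finset.mul_sum]
    congr 1
    refine Finset.sum_congr rfl fun k _ => ?_
    ring
  have hfin : ∀ s, s0 < s → s < 0 → ∀ δ : ℝ, 0 < δ →
      ∫⁻ x in Box hKY δ, gC l (t s) A v0 x ≠ ⊤ := by
    intro s h1 h2 δ hδ
    have h5 : -s < ν / N := by rw [hs0] at h1; linarith
    refine chamber_finite volume l (t s) (fun k => ?_) A v0 hKY hKtop ?_ ?_ hδ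
    · simp only [ht]
      have h3 := hmu k
      have h4 := hka k
      nlinarith
    · intro x hx1 hx2 B hB hBn
      rw [htsm]
      obtain ⟨h3, h4⟩ := hgood x hx1 hx2 B hB hBn
      have h6 : 0 ≤ ∑ k ∈ B, muf m w a k := Finset.sum_nonneg fun k _ => hmu k
      have h7 : (-s) * ∑ k ∈ B, muf m w a k < cdm l B - ∑ k ∈ B, kaf ι w k := by
        rcases h6.eq_or_lt with h8 | h8
        · rw [← h8, mul_zero]; exact h3
        · calc (-s) * ∑ k ∈ B, muf m w a k < ν / N * ∑ k ∈ B, muf m w a k :=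
                mul_lt_mul_of_pos_right h5 h8
            _ = (ν * ∑ k ∈ B, muf m w a k) / N := by ring
            _ ≤ ((cdm l B - ∑ k ∈ B, kaf ι w k) * N) / N := div_le_div_of_nonneg_right h4 hN.le
            _ = _ := by field_simp
      linarith
    · rw [htsm]
      have h6 : (-s) * N < ν := by
        calc (-s) * N < ν / N * N := mul_lt_mul_of_pos_right h5 hN
          _ = ν := by field_simp
      rw [hνdef] at h6
      linarith
  -- the radius
  have hU1 : ∀ᶠ x in 𝓝 p, ∀ i, Sum.inl i ∉ A → 0 < sg i * (lf (c i) x + e i) := by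
    rw [eventually_all]
    intro i
    by_cases hi : Sum.inl i ∈ A
    · exact Eventually.of_forall fun x h => absurd hi h
    · have h1 : 0 < sg i * (lf (c i) p + e i) := by
        rw [hsgN i hi]
        exact mul_self_pos.2 (fun h => hi ((hAi i).2 h))
      have h2 : Continuous fun x => sg i * (lf (c i) x + e i) := continuous_const.mul (cont_f _ _)
      filter_upwards [h2.continuousAt.eventually (lt_mem_nhds h1)] with x hx _
      exact hx
  have hU3 : ∀ᶠ x in 𝓝 p, ∀ j, j ∈ T \ Ar → 0 < x j := by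
    rw [eventually_all]
    intro j
    by_cases hj : j ∈ T \ Ar
    · have h1 : 0 < p j := by
        rw [Finset.mem_sdiff] at hj
        have h2 := (hmemT j).1 hj.1
        refine lt_of_le_of_ne (hp j h2) fun h => hj.2 ((hmemAr j).2 ((hAj j).2 ⟨h2, h.symm⟩))
      filter_upwards [(continuous_apply j).continuousAt.eventually (lt_mem_nhds h1)] with x hx _
      exact hx
    · exact Eventually.of_forall fun x h => absurd h hj
  have hU2 : ∀ᶠ x in 𝓝 p, x - p ∈ Box hKY (1 : ℝ) := by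
    have h1 : Tendsto (fun x : Fin (n + 1) → ℝ => x - p) (𝓝 p) (𝓝 0) := by
      have : Continuous fun x : Fin (n + 1) → ℝ => x - p := continuous_id.sub continuous_const
      simpa using this.tendsto p
    exact h1.eventually (Box_nhds hKY one_pos)
  obtain ⟨R, hR, hRU⟩ := Metric.nhds_basis_closedBall.eventually_iff.1 (hU1.and (hU2.and hU3))
  set K : Set (Fin (n + 1) → ℝ) := closedBall p R with hK
  have hKc : IsCompact K := isCompact_closedBall p R
  -- the factors which do not vanish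
  set H : (Fin (n + 1) → ℝ) → ℝ := fun x => ((∏ i ∈ Al, |sg i| ^ m i) *
    ∏ i ∈ Finset.univ \ Al, (sg i * (lf (c i) x + e i)) ^ m i) *
    ∏ j ∈ T \ Ar, x j ^ ((a j : ℝ) / (w j : ℝ)) with hH
  set E : (Fin (n + 1) → ℝ) → ℝ := fun x => (∏ j ∈ T, (1 / (w j : ℝ))) *
    ∏ j ∈ T \ Ar, x j ^ ((1 : ℝ) / (w j : ℝ) - 1) with hE
  have hHc : ContinuousOn H K := by
    rw [hH]
    refine ContinuousOn.mul (Continuous.continuousOn (continuous_const.mul
      (continuous_finsetProd _ fun i _ => (continuous_const.mul (cont_f _ _)).pow _))) ?_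
    refine continuousOn_finset_prod _ fun j hj => ?_
    exact (continuous_apply j).continuousOn.rpow_const fun x hx => Or.inl ((hRU hx).2.2 j hj).ne'
  have hEc : ContinuousOn E K := by
    rw [hE]
    refine continuousOn_const.mul (continuousOn_finset_prod _ fun j hj => ?_)
    exact (continuous_apply j).continuousOn.rpow_const fun x hx => Or.inl ((hRU hx).2.2 j hj).ne'
  have hHpos : ∀ x ∈ K, 0 < H x := by
    intro x hx
    refine mul_pos (mul_pos (Finset.prod_pos fun i _ => pow_pos (abs_pos.2 (hsg0 i)) _)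
      (Finset.prod_pos fun i hi => pow_pos ((hRU hx).1 i (fun h =>
        (Finset.mem_sdiff.1 hi).2 ((hmemAl i).2 h))) _))
      (Finset.prod_pos fun j hj => Real.rpow_pos_of_pos ((hRU hx).2.2 j hj) _)
  have hEpos : ∀ x ∈ K, 0 < E x := by
    intro x hx
    refine mul_pos (Finset.prod_pos fun j _ => ?_)
      (Finset.prod_pos fun j hj => Real.rpow_pos_of_pos ((hRU hx).2.2 j hj) _)
    have : (0 : ℝ) < w j := by exact_mod_cast hw j
    positivity
  have hlA : ∀ i, Sum.inl i ∈ A → ∀ x, lf (c i) x + e i = lf (c i) (x - p) := by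
    intro i hi x
    have h2 := (hAi i).1 hi
    rw [map_sub]
    linarith
  have hpj : ∀ j ∈ Ar, p j = 0 := fun j hj => ((hAj j).1 ((hmemAr j).1 hj)).2
  -- the density
  set Dn : (Fin (n + 1) → ℝ) → ℝ := fun x =>
    ∏ j ∈ T, ((1 / (w j : ℝ)) * x j ^ ((1 : ℝ) / (w j : ℝ) - 1)) with hDn
  have hkey : ∀ x ∈ Ox, (∀ j ∈ T, 0 < x j) → x ∈ K → ∀ s : ℝ,
      Fx x ^ s * Dn x = (H x ^ s * E x) * GG l 0 (t s) A (x - p) := by
    intro x hxO hxT hxK s
    have e1 : ∏ i, (sg i * (lf (c i) x + e i)) ^ m i =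
        ((∏ i ∈ Al, |sg i| ^ m i) * ∏ i ∈ Finset.univ \ Al, (sg i * (lf (c i) x + e i)) ^ m i) *
        ∏ i ∈ Al, |lf (c i) (x - p)| ^ m i := by
      rw [← Finset.prod_sdiff (Finset.subset_univ Al)]
      have h4 : ∏ i ∈ Al, (sg i * (lf (c i) x + e i)) ^ m i =
          (∏ i ∈ Al, |sg i| ^ m i) * ∏ i ∈ Al, |lf (c i) (x - p)| ^ m i := by
        rw [← Finset.prod_mul_distrib]
        refine Finset.prod_congr rfl fun i hi => ?_
        rw [← mul_pow, ← abs_mul, ← hlA i ((hmemAl i).1 hi), abs_of_pos (hxO i)]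
      rw [h4]
      ring
    have e2 : Fx x = H x * ((∏ i ∈ Al, |lf (c i) (x - p)| ^ m i) *
        ∏ j ∈ Ar, x j ^ ((a j : ℝ) / (w j : ℝ))) := by
      rw [hFx, hH]
      simp only
      rw [e1, ← Finset.prod_sdiff hArT]
      ring
    have hx0 : ∀ j ∈ Ar, 0 < x j := fun j hj => hxT j (hArT hj)
    have e3 : (∏ i ∈ Al, |lf (c i) (x - p)| ^ m i) ^ s =
        ∏ i ∈ Al, |l (Sum.inl i) (x - p) + (0 : ι ⊕ Fin (n + 1) → ℝ) (Sum.inl i)| ^
          (-(t s (Sum.inl i))) := by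
      rw [← Real.finset_prod_rpow _ _ (fun i _ => by positivity)]
      refine Finset.prod_congr rfl fun i _ => ?_
      have h5 : -(t s (Sum.inl i)) = (m i : ℝ) * s := by
        simp only [ht]
        change -((0 : ℝ) - (m i : ℝ) * s) = _
        ring
      rw [h5, Pi.zero_apply, add_zero, ← Real.rpow_natCast, ← Real.rpow_mul (abs_nonneg _)]
      rfl
    have e4 : (∏ j ∈ Ar, x j ^ ((a j : ℝ) / (w j : ℝ))) ^ s *
        ∏ j ∈ Ar, x j ^ ((1 : ℝ) / (w j : ℝ) - 1) =
        ∏ j ∈ Ar, |l (Sum.inr j) (x - p) + (0 : ι ⊕ Fin (n + 1) → ℝ) (Sum.inr j)| ^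
          (-(t s (Sum.inr j))) := by
      rw [← Real.finset_prod_rpow _ _ (fun j hj => Real.rpow_nonneg (hx0 j hj).le _),
        ← Finset.prod_mul_distrib]
      refine Finset.prod_congr rfl fun j hj => ?_
      have h5 : -(t s (Sum.inr j)) = (a j : ℝ) / (w j : ℝ) * s + ((1 : ℝ) / (w j : ℝ) - 1) := by
        simp only [ht]
        change -((1 - 1 / (w j : ℝ)) - (a j : ℝ) / (w j : ℝ) * s) = _
        ring
      have h6 : |l (Sum.inr j) (x - p) + (0 : ι ⊕ Fin (n + 1) → ℝ) (Sum.inr j)| = x j := by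
        rw [Pi.zero_apply, add_zero, hlj, Pi.sub_apply, hpj j hj, sub_zero, abs_of_pos (hx0 j hj)]
      rw [h6, h5, Real.rpow_add (hx0 j hj), Real.rpow_mul (hx0 j hj).le]
    have e5 : Dn x = E x * ∏ j ∈ Ar, x j ^ ((1 : ℝ) / (w j : ℝ) - 1) := by
      rw [hDn, hE]
      simp only
      rw [Finset.prod_mul_distrib, mul_assoc, Finset.prod_sdiff hArT]
    have e6 : GG l 0 (t s) A (x - p) =
        (∏ i ∈ Al, |l (Sum.inl i) (x - p) + (0 : ι ⊕ Fin (n + 1) → ℝ) (Sum.inl i)| ^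
          (-(t s (Sum.inl i)))) *
        ∏ j ∈ Ar, |l (Sum.inr j) (x - p) + (0 : ι ⊕ Fin (n + 1) → ℝ) (Sum.inr j)| ^
          (-(t s (Sum.inr j))) := by
      unfold GG
      rw [prod_split]
    rw [e6, ← e3, ← e4, e5, e2, Real.mul_rpow (hHpos x hxK).le (by
      refine mul_nonneg (Finset.prod_nonneg fun i _ => by positivity)
        (Finset.prod_nonneg fun j hj => Real.rpow_nonneg (hx0 j hj).le _)),
      Real.mul_rpow (Finset.prod_nonneg fun i _ => by positivity)
        (Finset.prod_nonneg fun j hj => Real.rpow_nonneg (hx0 j hj).le _)]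
    ring
  have hOCh : ∀ x ∈ Ox, (∀ j ∈ T, 0 < x j) → x - p ∈ Cham l A v0 := by
    intro x hx hxT k hk
    rcases k with i | j
    · have := hx i
      rw [hsgA i hk] at this
      rw [hli, ← hlA i hk]
      exact this
    · have hj : j ∈ Ar := (hmemAr j).2 hk
      rw [hlj, hlj, Pi.sub_apply, hpj j hj, sub_zero]
      exact mul_pos (hv j hk) (hxT j (hArT hj))
  have hChO : ∀ x ∈ K, x - p ∈ Cham l A v0 → x ∈ Ox ∧ ∀ j ∈ T, 0 < x j := by
    intro x hx hc
    refine ⟨fun i => ?_, fun j hj => ?_⟩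
    · by_cases hi : Sum.inl i ∈ A
      · have := hc _ hi
        rw [hli, ← hlA i hi] at this
        rw [hsgA i hi]
        exact this
      · exact (hRU hx).1 i hi
    · by_cases hjA : j ∈ Ar
      · have := hc _ ((hmemAr j).1 hjA)
        rw [hlj, hlj, Pi.sub_apply, hpj j hjA, sub_zero] at this
        exact (mul_pos_iff_of_pos_left (hv j ((hmemAr j).1 hjA))).1 this
      · exact (hRU hx).2.2 j (Finset.mem_sdiff.2 ⟨hj, hjA⟩)
  -- bounds
  have hKne : K.Nonempty := ⟨p, mem_closedBall_self hR.le⟩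
  obtain ⟨a0, ha0, ha0'⟩ : ∃ a0 : ℝ, 0 < a0 ∧ ∀ x ∈ K, a0 ≤ H x := by
    obtain ⟨x0, hx0, hmin⟩ := hKc.exists_isMinOn hKne hHc
    exact ⟨H x0, hHpos x0 hx0, fun x hx => hmin hx⟩
  obtain ⟨e0, he0, he0'⟩ : ∃ e0 : ℝ, 0 < e0 ∧ ∀ x ∈ K, e0 ≤ E x := by
    obtain ⟨x0, hx0, hmin⟩ := hKc.exists_isMinOn hKne hEc
    exact ⟨E x0, hEpos x0 hx0, fun x hx => hmin hx⟩
  obtain ⟨b1, hb1, hb1'⟩ : ∃ b1 : ℝ, 1 ≤ b1 ∧ ∀ x ∈ K, H x ≤ b1 := by
    obtain ⟨M, hM⟩ := hKc.exists_bound_of_continuousOn (f := H) hHc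
    refine ⟨max 1 M, le_max_left _ _, fun x hx => ?_⟩
    have := hM x hx
    rw [Real.norm_eq_abs] at this
    exact ((le_abs_self _).trans this).trans (le_max_right _ _)
  obtain ⟨e1, he1, he1'⟩ : ∃ e1 : ℝ, 1 ≤ e1 ∧ ∀ x ∈ K, E x ≤ e1 := by
    obtain ⟨M, hM⟩ := hKc.exists_bound_of_continuousOn (f := E) hEc
    refine ⟨max 1 M, le_max_left _ _, fun x hx => ?_⟩
    have := hM x hx
    rw [Real.norm_eq_abs] at this
    exact ((le_abs_self _).trans this).trans (le_max_right _ _)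
  have htr : ∀ (g : (Fin (n + 1) → ℝ) → ENNReal) (D : Set (Fin (n + 1) → ℝ)),
      ∫⁻ x in (fun x => x - p) ⁻¹' D, g (x - p) = ∫⁻ y in D, g y := by
    intro g D
    exact (measurePreserving_sub_right (volume : Measure (Fin (n + 1) → ℝ)) p).setLIntegral_comp_preimage_emb
      (Homeomorph.subRight p).measurableEmbedding g D
  -- the integrals in terms of `x`
  have hpush : ∀ (s : ℝ) (D : Set (Fin (n + 1) → ℝ)), MeasurableSet D →
      ∫⁻ y in (Ω ∩ P) ∩ pw w ⁻¹' D, ENNReal.ofReal (F y ^ s) =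
        ∫⁻ x in PT ∩ (Ox ∩ D), ENNReal.ofReal (Fx x ^ s * Dn x) := by
    intro s D hD
    have hOD : MeasurableSet (Ox ∩ D) := hOxo.measurableSet.inter hD
    have h1 : (Ω ∩ P) ∩ pw w ⁻¹' D = PT ∩ pw w ⁻¹' (Ox ∩ D) := by
      rw [hΩP, Set.inter_assoc, Set.preimage_inter]
    have h2 : MeasurableSet (pw w ⁻¹' (Ox ∩ D)) := (cont_pw w).measurable hOD
    have h3 := hPUSH (Fin (n + 1)) w T hw (fun j hj => by
      by_contra h
      exact hj ((hmemT j).2 (Or.inl h))) ((Ox ∩ D).indicator fun x => ENNReal.ofReal (Fx x ^ s))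
      (((hFxm.pow_const s).ennreal_ofReal).indicator hOD)
    have h4 : ∫⁻ y in (Ω ∩ P) ∩ pw w ⁻¹' D, ENNReal.ofReal (F y ^ s) =
        ∫⁻ y in PT, (Ox ∩ D).indicator (fun x => ENNReal.ofReal (Fx x ^ s)) (pw w y) := by
      rw [h1, Set.inter_comm PT, ← Measure.restrict_restrict h2, ← lintegral_indicator h2]
      refine setLIntegral_congr_fun hPTm fun y hy => ?_
      by_cases hy2 : pw w y ∈ Ox ∩ D
      · rw [Set.indicator_of_mem (show y ∈ pw w ⁻¹' (Ox ∩ D) from hy2),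
          Set.indicator_of_mem hy2, hFFx y hy]
      · rw [Set.indicator_of_notMem (show y ∉ pw w ⁻¹' (Ox ∩ D) from hy2),
          Set.indicator_of_notMem hy2]
    rw [h4, h3, Set.inter_comm PT, ← Measure.restrict_restrict hOD, ← lintegral_indicator hOD]
    refine setLIntegral_congr_fun hPTm fun x hx => ?_
    by_cases hx2 : x ∈ Ox ∩ D
    · rw [Set.indicator_of_mem hx2, Set.indicator_of_mem hx2,
        ← ENNReal.ofReal_prod_of_nonneg (fun j hj => by
          have h5 : (0 : ℝ) < w j := by exact_mod_cast hw j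
          have h6 := Real.rpow_nonneg (hx j hj).le ((1 : ℝ) / (w j : ℝ) - 1)
          positivity),
        ← ENNReal.ofReal_mul (by
          refine Real.rpow_nonneg (mul_nonneg (Finset.prod_nonneg fun j hj =>
            Real.rpow_nonneg (hx j hj).le _) (Finset.prod_nonneg fun i _ => (pow_pos (hx2.1 i) _).le)) _)]
    · rw [Set.indicator_of_notMem hx2, Set.indicator_of_notMem hx2, zero_mul]
  have hmeasF : ∀ s : ℝ, Measurable fun x => F x ^ s := fun s => hFc.measurable.pow_const _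
  have hKpc : IsCompact (pw w ⁻¹' K) := cpt_pw w hw hKc
  have hKm : MeasurableSet K := hKc.measurableSet
  have hm1 : MeasurableSet ((Ω ∩ P) ∩ pw w ⁻¹' K) := (hΩm.inter hPm).inter hKpc.measurableSet
  have hposΩ : ∀ y ∈ Ω ∩ P, 0 < F y := fun y hy => hpos y hy.1 hy.2
  have hI1 : ∀ s, s0 < s → s < 0 → IntegrableOn (fun y => F y ^ s) ((Ω ∩ P) ∩ pw w ⁻¹' K) := by
    intro s h1 h2
    refine ⟨(hmeasF s).aestronglyMeasurable, ?_⟩
    have hae : 0 ≤ᵐ[volume.restrict ((Ω ∩ P) ∩ pw w ⁻¹' K)] fun x => F x ^ s := by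
      filter_upwards [ae_restrict_mem hm1] with x hx
      exact Real.rpow_nonneg (hposΩ x hx.1).le _
    rw [hasFiniteIntegral_iff_ofReal hae, hpush s K hKm]
    have hmx : MeasurableSet (PT ∩ (Ox ∩ K)) := hPTm.inter (hOxo.measurableSet.inter hKm)
    have h3 : ∫⁻ x in PT ∩ (Ox ∩ K), ENNReal.ofReal (Fx x ^ s * Dn x) ≤
        ∫⁻ x in (fun x => x - p) ⁻¹' (Box hKY (1 : ℝ)),
          ENNReal.ofReal (a0 ^ s * e1) * gC l (t s) A v0 (x - p) := by
      refine le_trans ?_ (lintegral_mono_set (s := PT ∩ (Ox ∩ K)) ?_)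
      · refine setLIntegral_mono' hmx fun x hx => ?_
        unfold gC
        rw [Set.indicator_of_mem (hOCh x hx.2.1 hx.1), ← ENNReal.ofReal_mul (by positivity),
          hkey x hx.2.1 hx.1 hx.2.2 s]
        refine ENNReal.ofReal_le_ofReal (mul_le_mul_of_nonneg_right ?_ (GG_nonneg _ _ _ _ _))
        refine mul_le_mul (Real.rpow_le_rpow_of_nonpos ha0 (ha0' x hx.2.2) h2.le) (he1' x hx.2.2)
          (hEpos x hx.2.2).le (by positivity)
      · rintro x ⟨-, -, hx⟩
        exact (hRU hx).2.1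
    refine lt_of_le_of_lt h3 ?_
    rw [htr (fun y => ENNReal.ofReal (a0 ^ s * e1) * gC l (t s) A v0 y),
      lintegral_const_mul _ (gC_meas l (t s) A v0)]
    exact ENNReal.mul_lt_top ENNReal.ofReal_lt_top (lt_top_iff_ne_top.2 (hfin s h1 h2 1 one_pos))
  have hI : ∀ s, s0 < s → IntegrableOn (fun y => F y ^ s) ((Ω ∩ P) ∩ pw w ⁻¹' K) := by
    intro s hs
    by_cases h3 : s < 0
    · exact hI1 s hs h3
    · push Not at h3
      have h4 : Continuous fun x => F x ^ s := hFc.rpow_const fun _ => Or.inr h3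
      exact (h4.continuousOn.integrableOn_compact hKpc).mono_set Set.inter_subset_right
  obtain ⟨ρ, hρ0, hρ1, hρone, hρT⟩ := exists_bump p hR
  have hρm : Measurable ρ := by
    have h7 : ρ = fun x => ((ρ x : ℂ)).re := by
      funext x; rw [Complex.ofReal_re]
    rw [h7]
    exact (Complex.continuous_re.comp hρT.1.continuous).measurable
  -- the small box
  have hBoxsub : Box hKY (R / 4) ⊆ closedBall 0 (R / 2) := by
    rintro x ⟨hx1, hx2⟩
    rw [mem_closedBall_zero_iff, ← cK_add_cY hKY x]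
    refine (norm_add_le _ _).trans ?_
    change ‖cK hKY x‖ + ‖cY hKY x‖ ≤ _
    linarith
  have hR4 : 0 < R / 4 := by linarith
  obtain ⟨c1, hc1, hdiv⟩ := chamber_div2 volume l (muf m w a) (kaf ι w) hmu hka A v0 h0 hKY
    ⟨k0, hk0⟩ hN hR4
  have hlow : ∀ s, s0 < s → s < 0 →
      (b1 ^ s0 * e0) * (c1 / (s - s0)) ≤ ∫ y in Ω ∩ P, F y ^ s * ρ (pw w y) := by
    intro s h1 h2
    have hnn : ∀ y ∈ Ω ∩ P, 0 ≤ F y ^ s := fun y hy => Real.rpow_nonneg (hposΩ y hy).le _
    have hρm' : Measurable fun y => ρ (pw w y) := hρm.comp (cont_pw w).measurable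
    have hint : IntegrableOn (fun y => F y ^ s * ρ (pw w y)) ((Ω ∩ P) ∩ pw w ⁻¹' K) := by
      refine (hI s h1).mono' ?_ ?_
      · exact ((hmeasF s).mul hρm').aestronglyMeasurable
      · filter_upwards [ae_restrict_mem hm1] with x hx
        rw [norm_mul, Real.norm_eq_abs, Real.norm_eq_abs, abs_of_nonneg (hnn x hx.1),
          abs_of_nonneg (hρ0 _)]
        exact mul_le_of_le_one_right (hnn x hx.1) (hρ1 _)
    have e00 : ∫ y in Ω ∩ P, F y ^ s * ρ (pw w y) =
        ∫ y in (Ω ∩ P) ∩ pw w ⁻¹' K, F y ^ s * ρ (pw w y) := by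
      refine setIntegral_eq_of_subset_of_forall_sdiff_eq_zero (hΩm.inter hPm) Set.inter_subset_left ?_
      rintro y ⟨hx1, hx2⟩
      have hx3 : pw w y ∉ K := fun h => hx2 ⟨hx1, h⟩
      have hx4 : (ρ (pw w y) : ℂ) = 0 := Pool.Agent.H74A.Test.zero hρT hx3
      rw [Complex.ofReal_eq_zero.1 hx4, mul_zero]
    rw [e00, integral_eq_lintegral_of_nonneg_ae ?_ hint.1]
    swap
    · filter_upwards [ae_restrict_mem hm1] with x hx
      exact mul_nonneg (hnn x hx.1) (hρ0 _)
    have hJt : ∫⁻ y in (Ω ∩ P) ∩ pw w ⁻¹' K, ENNReal.ofReal (F y ^ s * ρ (pw w y)) ≠ ⊤ := by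
      have h3 := hint.2
      have hae : 0 ≤ᵐ[volume.restrict ((Ω ∩ P) ∩ pw w ⁻¹' K)] fun y => F y ^ s * ρ (pw w y) := by
        filter_upwards [ae_restrict_mem hm1] with x hx
        exact mul_nonneg (hnn x hx.1) (hρ0 _)
      rw [hasFiniteIntegral_iff_ofReal hae] at h3
      exact h3.ne
    have hfs := hfin s h1 h2 (R / 4) hR4
    have h3 := hdiv s h1 h2 hfs
    set K2 : Set (Fin (n + 1) → ℝ) := closedBall p (R / 2) with hK2
    have hK2K : K2 ⊆ K := closedBall_subset_closedBall (by linarith)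
    have hK2m : MeasurableSet K2 := measurableSet_closedBall
    have h4 : ENNReal.ofReal (b1 ^ s0 * e0) * ∫⁻ x in Box hKY (R / 4), gC l (t s) A v0 x ≤
        ∫⁻ y in (Ω ∩ P) ∩ pw w ⁻¹' K, ENNReal.ofReal (F y ^ s * ρ (pw w y)) := by
      have h8 : ∫⁻ y in (Ω ∩ P) ∩ pw w ⁻¹' K2, ENNReal.ofReal (F y ^ s) ≤
          ∫⁻ y in (Ω ∩ P) ∩ pw w ⁻¹' K, ENNReal.ofReal (F y ^ s * ρ (pw w y)) := by
        have hm2 : MeasurableSet ((Ω ∩ P) ∩ pw w ⁻¹' K2) :=
          (hΩm.inter hPm).inter ((cont_pw w).measurable hK2m)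
        refine le_trans ?_ (lintegral_mono_set (Set.inter_subset_inter_right _
          (Set.preimage_mono hK2K)))
        refine setLIntegral_mono' hm2 fun y hy => ?_
        rw [hρone _ hy.2, mul_one]
      refine le_trans ?_ h8
      rw [hpush s K2 hK2m, ← lintegral_const_mul _ (gC_meas l (t s) A v0),
        ← htr (fun y => ENNReal.ofReal (b1 ^ s0 * e0) * gC l (t s) A v0 y)]
      have h5 : (fun x => x - p) ⁻¹' (Box hKY (R / 4)) ⊆ K2 := by
        intro x hx
        have := hBoxsub hx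
        rw [mem_closedBall_zero_iff] at this
        rwa [hK2, mem_closedBall, dist_eq_norm]
      have h6 : ∀ x, ENNReal.ofReal (b1 ^ s0 * e0) * gC l (t s) A v0 (x - p) =
          ((fun x => x - p) ⁻¹' (Cham l A v0)).indicator (fun x =>
            ENNReal.ofReal (b1 ^ s0 * e0) * ENNReal.ofReal (GG l 0 (t s) A (x - p))) x := by
        intro x
        unfold gC
        by_cases hx : x - p ∈ Cham l A v0
        · rw [Set.indicator_of_mem hx,
            Set.indicator_of_mem (show x ∈ (fun x => x - p) ⁻¹' (Cham l A v0) from hx)]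
        · rw [Set.indicator_of_notMem hx,
            Set.indicator_of_notMem (show x ∉ (fun x => x - p) ⁻¹' (Cham l A v0) from hx), mul_zero]
      simp only [h6]
      have hmC : MeasurableSet ((fun x : Fin (n + 1) → ℝ => x - p) ⁻¹' (Cham l A v0)) :=
        ((Cham_open l A v0).preimage (continuous_id.sub continuous_const)).measurableSet
      have hmB : MeasurableSet ((fun x : Fin (n + 1) → ℝ => x - p) ⁻¹' (Box hKY (R / 4))) :=
        (Box_meas hKY _).preimage (measurable_id.sub_const _)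
      rw [setLIntegral_indicator hmC]
      have h7 : (fun x : Fin (n + 1) → ℝ => x - p) ⁻¹' (Cham l A v0) ∩
          (fun x : Fin (n + 1) → ℝ => x - p) ⁻¹' (Box hKY (R / 4)) ⊆ PT ∩ (Ox ∩ K2) := by
        rintro x ⟨hx1, hx2⟩
        obtain ⟨g1, g2⟩ := hChO x (hK2K (h5 hx2)) hx1
        exact ⟨g2, g1, h5 hx2⟩
      refine le_trans ?_ (lintegral_mono_set h7)
      refine setLIntegral_mono' (hmC.inter hmB) fun x hx => ?_
      obtain ⟨g2, g1, g3⟩ := h7 hx
      have g4 := hK2K g3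
      rw [hkey x g1 g2 g4 s, ← ENNReal.ofReal_mul (by positivity)]
      refine ENNReal.ofReal_le_ofReal (mul_le_mul_of_nonneg_right ?_ (GG_nonneg _ _ _ _ _))
      refine mul_le_mul ?_ (he0' x g4) he0.le (Real.rpow_nonneg (hHpos x g4).le _)
      calc b1 ^ s0 ≤ b1 ^ s := Real.rpow_le_rpow_of_exponent_le hb1 h1.le
        _ ≤ _ := Real.rpow_le_rpow_of_nonpos (hHpos x g4) (hb1' x g4) h2.le
    have h5 := ENNReal.toReal_mono hJt h4
    rw [ENNReal.toReal_mul, ENNReal.toReal_ofReal (by positivity)] at h5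
    refine le_trans (mul_le_mul_of_nonneg_left ?_ (by positivity)) h5
    have h6 : s - s0 = s + ν / N := by rw [hs0]; ring
    rw [h6]
    exact h3
  refine hSTAR n (C (κ : ℂ) * diaP c e m w a) w S hw ?_ ?_ Ω hBdry F hF hpos b hb' K hKc ρ hρT s0 hI ?_
  · intro j hj
    have h1 := ((hmemS j).1 hj).1
    have h2 := hw j
    omega
  · intro z j hj ζ hζ
    rw [map_mul, map_mul, eval_C, eval_C, inv_dia c e m w a z j ((hmemS j).1 hj).2 ζ hζ]
  · intro M δ hδ
    set S0 : ℝ := b1 ^ s0 * e0 * c1 with hS0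
    have hS0p : 0 < S0 := by positivity
    set ε : ℝ := min (min (δ / 2) (-s0 / 2)) (S0 / (|M| + 1)) with hε
    have hε0 : 0 < ε := lt_min (lt_min (by linarith) (by linarith)) (by positivity)
    have h1 : ε ≤ δ / 2 := (min_le_left _ _).trans (min_le_left _ _)
    have h2 : ε ≤ -s0 / 2 := (min_le_left _ _).trans (min_le_right _ _)
    have h3 : ε ≤ S0 / (|M| + 1) := min_le_right _ _
    refine ⟨s0 + ε, by linarith, by linarith, ?_⟩
    have h4 := hlow (s0 + ε) (by linarith) (by linarith)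
    rw [add_sub_cancel_left] at h4
    have h5 : |M| + 1 ≤ (b1 ^ s0 * e0) * (c1 / ε) := by
      rw [← mul_div_assoc, le_div_iff₀ hε0, ← hS0]
      calc (|M| + 1) * ε ≤ (|M| + 1) * (S0 / (|M| + 1)) :=
            mul_le_mul_of_nonneg_left h3 (by positivity)
        _ = S0 := by field_simp
    have := le_abs_self M
    linarith

end Pool.Agent.H73.DA
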