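import Pool.Agent.H73.DA.Comb2
import Pool.Agent.H45.DA.Star
import Pool.Agent.H91DA.Push
import Pool.Agent.H15DA.IBP
import Pool.Agent.TH192.DT.TopZ

set_option autoImplicit false
set_option linter.unusedVariables false
set_option linter.unusedSectionVars false

/-! # Light chambers -/

namespace Pool.Agent.H73.DA

open MvPolynomial Module MeasureTheory Filter Topology Metric
open Pool.Agent.H73.RA
open Pool.Agent.H628R4.TP (IsBFunction)

/-- all flats which meet a closed chamber outside the centre are light -/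
def LC {ι σ : Type} [Fintype ι] [DecidableEq ι] [Fintype σ] [DecidableEq σ]
    (c : ι → σ → ℝ) (e : ι → ℝ) (m : ι → ℕ) (w a : σ → ℕ) (x : σ → ℝ) : Prop :=
  ∃ v0 : σ → ℝ, (∀ k ∈ flatAt c e w a x, LL c k v0 ≠ 0) ∧
    ∀ y, (∀ k ∈ flatAt c e w a x, 0 ≤ LL c k v0 * LL c k y) →
      (∃ k ∈ flatAt c e w a x, LL c k y ≠ 0) →
      ∀ B, B ⊆ flatAt c e w a x → (∀ k ∈ B, LL c k y = 0) →
        nu (rk c) w (flatAt c e w a x) * NN m w a B ≤
          nu (rk c) w B * NN m w a (flatAt c e w a x)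

theorem nu_eq {ι σ : Type} [Fintype ι] [DecidableEq ι] [Fintype σ] [DecidableEq σ]
    (c : ι → σ → ℝ) (w : σ → ℕ) (B : Finset (ι ⊕ σ)) :
    nu (rk c) w B = cdm (LL c) B - ∑ k ∈ B, kaf ι w k := by rw [cdm_rk]; rfl

theorem root_LC {n : ℕ} {ι : Type} [Fintype ι] [DecidableEq ι]
    (c : ι → Fin (n + 1) → ℝ) (e : ι → ℝ) (m : ι → ℕ) (w a : Fin (n + 1) → ℕ)
    (hc : ∀ i, c i ≠ 0) (hm : ∀ i, 0 < m i) (hw : ∀ j, 0 < w j) (x : Fin (n + 1) → ℝ)
    (hN : 0 < NN m w a (flatAt c e w a x)) (hL : LC c e m w a x)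
    (b : Polynomial ℂ) (hb : IsBFunction (diaP c e m w a) b) :
    b.eval ((-(nu (rk c) w (flatAt c e w a x) / NN m w a (flatAt c e w a x)) : ℝ) : ℂ) = 0 := by
  classical
  obtain ⟨v0, h0, hv⟩ := hL
  set A := flatAt c e w a x with hA
  have hAn : A.Nonempty := by
    rw [Finset.nonempty_iff_ne_empty]
    intro h
    rw [h] at hN
    simp [NN] at hN
  have hNN : ∀ B : Finset (ι ⊕ Fin (n + 1)), NN m w a B = ∑ k ∈ B, muf m w a k := fun B => rfl
  have hnupos : ∀ B : Finset (ι ⊕ Fin (n + 1)), B.Nonempty → 0 < nu (rk c) w B := fun B hB =>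
    nu_pos c hc w hw B hB
  have key := root_diag' (Pool.Agent.H45.DA.star Pool.Agent.H15DA.ibp) Pool.Agent.H91DA.Push.main
    c e m w a hm hw x v0 A
    (fun i => by rw [hA, mem_flat_l, lf_apply]) (fun j => by rw [hA, mem_flat_r]) h0 hAn
    (by rw [← hNN]; exact hN) (by rw [← nu_eq]; exact hnupos A hAn) ?_ b hb
  · rw [nu_eq, hNN]
    exact key
  · intro y hy1 hy2 B hB hBn
    rw [← nu_eq, ← nu_eq, ← hNN, ← hNN]
    exact ⟨hnupos B hBn, hv y hy1 hy2 B (hB.trans (Finset.filter_subset _ _))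
      fun k hk => (Finset.mem_filter.1 (hB hk)).2⟩

/-- heavy flats with a common element -/
theorem LC_common {n : ℕ} {ι : Type} [Fintype ι] [DecidableEq ι]
    (c : ι → Fin (n + 1) → ℝ) (e : ι → ℝ) (m : ι → ℕ) (w a : Fin (n + 1) → ℕ)
    (hc : ∀ i, c i ≠ 0) (hw : ∀ j, 0 < w j) (x : Fin (n + 1) → ℝ)
    (hirr : Irrd c (flatAt c e w a x))
    (h : ι ⊕ Fin (n + 1)) (hh : h ∈ flatAt c e w a x)
    (hcom : ∀ B, ClosedIn (rk c) (flatAt c e w a x) B → B ≠ flatAt c e w a x →
      nu (rk c) w B * NN m w a (flatAt c e w a x) < nu (rk c) w (flatAt c e w a x) * NN m w a B →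
      h ∈ B) : LC c e m w a x := by
  classical
  have hA : flatAt c e w a x = flatAt c e w a x := rfl
  revert hirr hh hcom
  unfold LC
  generalize flatAt c e w a x = A
  intro hirr hh hcom
  have hmu : ∀ k, 0 ≤ muf m w a k := by
    rintro (i | j)
    · exact Nat.cast_nonneg _
    · exact div_nonneg (Nat.cast_nonneg _) (Nat.cast_nonneg _)
  have hNN : ∀ B : Finset (ι ⊕ Fin (n + 1)), NN m w a B = ∑ k ∈ B, muf m w a k := fun B => rfl
  have hka : ∀ k, 0 ≤ kaf ι w k := by
    rintro (i | j)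
    · exact le_refl _
    · change (0 : ℝ) ≤ 1 - 1 / (w j : ℝ)
      have h1 : (1 : ℝ) ≤ w j := by exact_mod_cast hw j
      have h2 : 1 / (w j : ℝ) ≤ 1 := by
        rw [div_le_one (by linarith)]; exact h1
      linarith
  have hnupos : ∀ B : Finset (ι ⊕ Fin (n + 1)), B.Nonempty → 0 < nu (rk c) w B := fun B hB =>
    nu_pos c hc w hw B hB
  obtain ⟨hAn, hirr'⟩ := hirr
  have hfr : finrank ℝ (⊤ : Submodule ℝ (Fin (n + 1) → ℝ)) = finrank ℝ (Fin (n + 1) → ℝ) := finrank_top _ _
  have hIrr : Irr (LL c) ⊤ A := by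
    refine ⟨?_, fun B hB hBn hBA => ?_⟩
    · obtain ⟨k, hk⟩ := hAn
      have h1 := rk_sing c hc k
      have h2 := (rk_rank c).mono {k} A (Finset.singleton_subset_iff.2 hk)
      have h3 := rk_add c A
      rw [hfr]
      omega
    · have h1 := hirr' B hB hBn hBA
      have h2 := rk_add c A
      have h3 := rk_add c B
      have h4 := rk_add c (A \ B)
      rw [hfr]
      omega
  obtain ⟨v0, -, h0, hch⟩ := exists_chamber (LL c) A.card ⊤ A rfl hIrr h hh
  refine ⟨v0, h0, fun y hy1 hy2 B hBA hyB => ?_⟩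
  rcases B.eq_empty_or_nonempty with hB0 | hBn
  · rw [hB0]
    have e1 : NN m w a (∅ : Finset (ι ⊕ Fin (n + 1))) = 0 := by simp [NN]
    have e2 : nu (rk c) w (∅ : Finset (ι ⊕ Fin (n + 1))) = 0 := by simp [nu, rk]
    rw [e1, e2, mul_zero, zero_mul]
  -- the closure
  set B' := A.filter (fun k => ∀ z ∈ Zr (LL c) ⊤ B, LL c k z = 0) with hB'
  have hBB' : B ⊆ B' := fun k hk => Finset.mem_filter.2 ⟨hBA hk, fun z hz => (mem_Zr.1 hz).2 k hk⟩
  have hZ : Zr (LL c) ⊤ B' = Zr (LL c) ⊤ B := by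
    refine le_antisymm (Zr_mono hBB') fun z hz => mem_Zr.2 ⟨Submodule.mem_top, fun k hk => ?_⟩
    exact (Finset.mem_filter.1 hk).2 z hz
  have hkp : kp (LL c) ⊤ B' = kp (LL c) ⊤ B := by
    unfold kp
    rw [hZ]
  have hrk : rk c B' = rk c B := by
    have h1 := rk_add c B
    have h2 := rk_add c B'
    omega
  have hyB2 : y ∈ Zr (LL c) ⊤ B := mem_Zr.2 ⟨Submodule.mem_top, hyB⟩
  have hyB' : ∀ k ∈ B', LL c k y = 0 := fun k hk => (Finset.mem_filter.1 hk).2 y hyB2
  have hcl : ClosedIn (rk c) A B' := by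
    refine ⟨Finset.filter_subset _ _, fun k hk hr => Finset.mem_filter.2 ⟨hk, ?_⟩⟩
    have h1 : Zr (LL c) ⊤ (insert k B') = Zr (LL c) ⊤ B' := by
      refine Zr_eq (Finset.subset_insert k B') ?_
      have h2 := rk_add c B'
      have h3 := rk_add c (insert k B')
      omega
    intro z hz
    rw [← hZ, ← h1] at hz
    exact (mem_Zr.1 hz).2 k (Finset.mem_insert_self _ _)
  obtain ⟨k1, hk1, hk1'⟩ := hy2
  have hne : B' ≠ A := by
    intro h1
    rw [← h1] at hk1
    exact hk1' (hyB' k1 hk1)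
  have hnot : h ∉ B' := by
    intro h1
    exact hk1' (hch y Submodule.mem_top hy1 (hyB' h h1) k1 hk1)
  have h2 : ¬ (nu (rk c) w B' * NN m w a A < nu (rk c) w A * NN m w a B') := fun h3 =>
    hnot (hcom B' hcl hne h3)
  push Not at h2
  have h3 : NN m w a B ≤ NN m w a B' := by
    rw [hNN, hNN]
    exact Finset.sum_le_sum_of_subset_of_nonneg hBB' fun k _ _ => hmu k
  have hN0 : 0 ≤ NN m w a A := by
    rw [hNN]
    exact Finset.sum_nonneg fun k _ => hmu k
  have h4 : nu (rk c) w B' ≤ nu (rk c) w B := by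
    have h5 : ∑ k ∈ B, kaf ι w k ≤ ∑ k ∈ B', kaf ι w k :=
      Finset.sum_le_sum_of_subset_of_nonneg hBB' fun k _ _ => hka k
    change (rk c B' : ℝ) - ∑ k ∈ B', kaf ι w k ≤ (rk c B : ℝ) - ∑ k ∈ B, kaf ι w k
    rw [hrk]
    linarith
  calc nu (rk c) w A * NN m w a B ≤ nu (rk c) w A * NN m w a B' :=
        mul_le_mul_of_nonneg_left h3 (hnupos A hAn).le
    _ ≤ nu (rk c) w B' * NN m w a A := h2
    _ ≤ nu (rk c) w B * NN m w a A := mul_le_mul_of_nonneg_right h4 hN0

/-- no two of the hyperplanes are equal -/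
def Dist {ι σ : Type} [DecidableEq σ] (c : ι → σ → ℝ) (e : ι → ℝ) (w a : σ → ℕ) : Prop :=
  (∀ i i', i ≠ i' → ∀ t : ℝ, ¬ (c i' = t • c i ∧ e i' = t * e i)) ∧
    ∀ i j, (w j ≠ 1 ∨ a j ≠ 0) → ∀ t : ℝ, ¬ (c i = Pi.single j t ∧ e i = 0)

theorem pair2 {n : ℕ} {ι : Type} [Fintype ι] [DecidableEq ι]
    (c : ι → Fin (n + 1) → ℝ) (e : ι → ℝ) (w a : Fin (n + 1) → ℕ)
    (hc : ∀ i, c i ≠ 0) (hdist : Dist c e w a) (x : Fin (n + 1) → ℝ) :
    ∀ k ∈ flatAt c e w a x, ∀ k' ∈ flatAt c e w a x, k ≠ k' → 2 ≤ rk c {k, k'} := by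
  classical
  obtain ⟨hpair, hwall⟩ := hdist
  have hind : ∀ k ∈ flatAt c e w a x, ∀ k' ∈ flatAt c e w a x, k ≠ k' → ∀ t : ℝ,
      vec c k' ≠ t • vec c k := by
    rintro (i | j) hk (i' | j') hk' hne t hv
    · have h1 : c i' = t • c i := hv
      rw [mem_flat_l] at hk hk'
      refine hpair i i' (fun h => hne (by rw [h])) t ⟨h1, ?_⟩
      have h2 : ∑ j, c i' j * x j = t * ∑ j, c i j * x j := by
        rw [Finset.mul_sum]
        refine Finset.sum_congr rfl fun j _ => ?_
        rw [h1, Pi.smul_apply, smul_eq_mul]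
        ring
      rw [h2] at hk'
      have h3 : ∑ j, c i j * x j = -e i := by linarith
      rw [h3] at hk'
      linarith
    · -- `e_j' = t c_i`
      have h1 : (Pi.single j' (1 : ℝ) : Fin (n + 1) → ℝ) = t • c i := hv
      have ht : t ≠ 0 := by
        rintro rfl
        rw [zero_smul] at h1
        have := congrFun h1 j'
        rw [Pi.single_eq_same] at this
        exact one_ne_zero this
      rw [mem_flat_l] at hk
      rw [mem_flat_r] at hk'
      have h2 : c i = Pi.single j' t⁻¹ := by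
        funext j
        have h3 := congrFun h1 j
        rw [Pi.smul_apply, smul_eq_mul] at h3
        by_cases hj : j = j'
        · subst hj
          rw [Pi.single_eq_same] at h3 ⊢
          field_simp
          linarith
        · rw [Pi.single_eq_of_ne hj] at h3 ⊢
          exact (mul_eq_zero.1 h3.symm).resolve_left ht
      refine hwall i j' hk'.1 t⁻¹ ⟨h2, ?_⟩
      have h4 : ∑ j, c i j * x j = 0 := by
        refine Finset.sum_eq_zero fun j _ => ?_
        rw [h2]
        by_cases hj : j = j'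
        · subst hj
          rw [hk'.2, mul_zero]
        · rw [Pi.single_eq_of_ne hj, zero_mul]
      rw [h4] at hk
      linarith
    · have h1 : c i' = t • (Pi.single j (1 : ℝ) : Fin (n + 1) → ℝ) := hv
      rw [mem_flat_r] at hk
      rw [mem_flat_l] at hk'
      have h2 : c i' = Pi.single j t := by
        rw [h1]
        funext j2
        by_cases hj : j2 = j
        · subst hj
          simp
        · simp [Pi.single_eq_of_ne hj]
      refine hwall i' j hk.1 t ⟨h2, ?_⟩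
      have h4 : ∑ j, c i' j * x j = 0 := by
        refine Finset.sum_eq_zero fun j2 _ => ?_
        rw [h2]
        by_cases hj : j2 = j
        · subst hj
          rw [hk.2, mul_zero]
        · rw [Pi.single_eq_of_ne hj, zero_mul]
      rw [h4] at hk'
      linarith
    · have h1 : (Pi.single j' (1 : ℝ) : Fin (n + 1) → ℝ) = t • (Pi.single j (1 : ℝ) : Fin (n + 1) → ℝ) := hv
      have hjj : j' ≠ j := fun h => hne (by rw [h])
      have := congrFun h1 j'
      rw [Pi.single_eq_same, Pi.smul_apply, Pi.single_eq_of_ne hjj, smul_zero] at this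
      exact one_ne_zero this
  intro k hk k' hk' hne
  have hli : LinearIndependent ℝ ![vec c k, vec c k'] := by
    rw [LinearIndependent.pair_iff' (vec_ne c hc k)]
    intro t ht
    exact hind k hk k' hk' hne t ht.symm
  have h1 := finrank_span_eq_card hli
  unfold rk
  have h2 : vec c '' (({k, k'} : Finset (ι ⊕ Fin (n + 1))) : Set (ι ⊕ Fin (n + 1))) =
      Set.range ![vec c k, vec c k'] := by
    rw [Finset.coe_pair, Set.image_pair, Matrix.range_cons, Matrix.range_cons, Matrix.range_empty,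
      Set.union_empty]
    rfl
  rw [h2, h1]
  simp

/-- **At most three variables.** -/
theorem LC_three {n : ℕ} (hn : n + 1 ≤ 3) {ι : Type} [Fintype ι] [DecidableEq ι]
    (c : ι → Fin (n + 1) → ℝ) (e : ι → ℝ) (m : ι → ℕ) (w a : Fin (n + 1) → ℕ)
    (hc : ∀ i, c i ≠ 0) (hw : ∀ j, 0 < w j) (hdist : Dist c e w a)
    (x : Fin (n + 1) → ℝ) (hirr : Irrd c (flatAt c e w a x))
    (hN : 0 < NN m w a (flatAt c e w a x))
    (h : ((∀ i, m i = 1) ∧ ∀ j, a j ≤ 1) ∨
      ∀ k ∈ flatAt c e w a x, ∀ k' ∈ flatAt c e w a x,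
        nu (rk c) w {k} * NN m w a (flatAt c e w a x) <
          nu (rk c) w (flatAt c e w a x) * NN m w a {k} →
        nu (rk c) w {k'} * NN m w a (flatAt c e w a x) <
          nu (rk c) w (flatAt c e w a x) * NN m w a {k'} → k = k') : LC c e m w a x := by
  classical
  have hpair2 := pair2 c e w a hc hdist x
  have hr3 : rk c (flatAt c e w a x) ≤ 3 := by
    have h1 := rk_add c (flatAt c e w a x)
    have h2 : finrank ℝ (Fin (n + 1) → ℝ) = n + 1 := by simp
    omega
  rcases h with ⟨h1, h2⟩ | h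
  · have hm1 : m = fun _ => 1 := funext h1
    subst hm1
    obtain ⟨h, hh, hcom⟩ := Pool.Agent.H90.DA.t ι (Fin (n + 1)) (rk c) (rk_rank c) w a
      (flatAt c e w a x) hw
      (fun j hj hj1 => by
        rw [mem_flat_r] at hj
        have h3 := hj.1.resolve_left (fun h => h hj1)
        have h4 := h2 j
        omega) h2 (fun B _ h => rk_walls c B h) hpair2 (fun k _ => rk_sing c hc k) hirr.1 hirr.2 hr3 hN
    exact LC_common c e _ w a hc hw x hirr h hh hcom
  · obtain ⟨h, hh, hcom⟩ := comb_one (rk_rank c) m w a (flatAt c e w a x) hw hpair2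
      (fun k _ => rk_sing c hc k) hirr.1 hr3 hN (nu_pos c hc w hw _ hirr.1).le h
    exact LC_common c e m w a hc hw x hirr h hh hcom

end Pool.Agent.H73.DA
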