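import Pool.Agent.H73.DA.Diag

set_option autoImplicit false
set_option linter.unusedVariables false
set_option linter.unusedSectionVars false

/-! # Diagonal substitutions, and the signs of the coordinates -/

namespace Pool.Agent.H73.DA

open MvPolynomial Module MeasureTheory Filter Topology Metric
open Pool.Agent.H73.RA
open Pool.Agent.H628R4.TP (IsBFunction weylS)

section
variable {σ : Type} [Fintype σ] [DecidableEq σ]

/-- `X_j ↦ ζ_j X_j` -/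
noncomputable def dsub (ζ : σ → ℂ) : MvPolynomial σ ℂ →ₐ[ℂ] MvPolynomial σ ℂ :=
  aeval fun j => C (ζ j) * X j

theorem dsub_X (ζ : σ → ℂ) (j : σ) : dsub ζ (X j) = C (ζ j) * X j := by
  unfold dsub; rw [aeval_X]

theorem dsub_C (ζ : σ → ℂ) (r : ℂ) : dsub ζ (C r) = C r := by
  unfold dsub; rw [algHom_C]; rfl

theorem dsub_pderiv (ζ : σ → ℂ) (i : σ) (g : MvPolynomial σ ℂ) :
    pderiv i (dsub ζ g) = C (ζ i) * dsub ζ (pderiv i g) := by
  induction g using MvPolynomial.induction_on with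
  | C r => rw [dsub_C, pderiv_C, map_zero, mul_zero]
  | add p q hp hq => rw [map_add, map_add, map_add, map_add, hp, hq, mul_add]
  | mul_X p j hp =>
    rw [map_mul, pderiv_mul, hp, dsub_X, pderiv_mul, pderiv_mul, pderiv_C, pderiv_X]
    simp only [map_add, map_mul, dsub_X]
    by_cases hij : j = i
    · subst hij
      simp only [Pi.single_eq_same, map_one]
      ring
    · simp only [Pi.single_eq_of_ne hij, map_zero]
      ring

theorem X_mem (i : σ) : LinearMap.mulLeft ℂ (X i : MvPolynomial σ ℂ) ∈ weylS σ :=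
  Algebra.subset_adjoin (Or.inl ⟨i, rfl⟩)

theorem D_mem (i : σ) : ((pderiv i : Derivation ℂ (MvPolynomial σ ℂ) (MvPolynomial σ ℂ)) :
    MvPolynomial σ ℂ →ₗ[ℂ] MvPolynomial σ ℂ) ∈ weylS σ :=
  Algebra.subset_adjoin (Or.inr ⟨i, rfl⟩)

theorem dsub_weyl (ζ : σ → ℂ) (hζ : ∀ j, ζ j ≠ 0) (Q : Module.End ℂ (MvPolynomial σ ℂ))
    (hQ : Q ∈ weylS σ) : ∃ Q' ∈ weylS σ, ∀ g, dsub ζ (Q g) = Q' (dsub ζ g) := by
  induction hQ using Algebra.adjoin_induction with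
  | mem Q hQ =>
    rcases hQ with ⟨i, rfl⟩ | ⟨i, rfl⟩
    · refine ⟨ζ i • LinearMap.mulLeft ℂ (X i : MvPolynomial σ ℂ), Subalgebra.smul_mem _
        (X_mem i) _, fun g => ?_⟩
      rw [LinearMap.mulLeft_apply, map_mul, dsub_X, LinearMap.smul_apply, LinearMap.mulLeft_apply,
        smul_eq_C_mul]
      ring
    · refine ⟨(ζ i)⁻¹ • ((pderiv i : Derivation ℂ (MvPolynomial σ ℂ) (MvPolynomial σ ℂ)) :
        MvPolynomial σ ℂ →ₗ[ℂ] MvPolynomial σ ℂ), Subalgebra.smul_mem _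
        (D_mem i) _, fun g => ?_⟩
      change dsub ζ (pderiv i g) = (ζ i)⁻¹ • pderiv i (dsub ζ g)
      rw [dsub_pderiv, smul_eq_C_mul, ← mul_assoc, ← C_mul, inv_mul_cancel₀ (hζ i), C_1, one_mul]
  | algebraMap r =>
    refine ⟨algebraMap ℂ _ r, Subalgebra.algebraMap_mem _ r, fun g => ?_⟩
    rw [Module.algebraMap_end_apply, Module.algebraMap_end_apply, map_smul]
  | add Q R _ _ hQ hR =>
    obtain ⟨Q', h1, h2⟩ := hQ
    obtain ⟨R', h3, h4⟩ := hR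
    refine ⟨Q' + R', add_mem h1 h3, fun g => ?_⟩
    rw [LinearMap.add_apply, LinearMap.add_apply, map_add, h2, h4]
  | mul Q R _ _ hQ hR =>
    obtain ⟨Q', h1, h2⟩ := hQ
    obtain ⟨R', h3, h4⟩ := hR
    refine ⟨Q' * R', mul_mem h1 h3, fun g => ?_⟩
    rw [Module.End.mul_apply, Module.End.mul_apply, h2, h4]

theorem bfun_dsub (ζ : σ → ℂ) (hζ : ∀ j, ζ j ≠ 0) (f : MvPolynomial σ ℂ) (b : Polynomial ℂ)
    (h : IsBFunction f b) : IsBFunction (dsub ζ f) b := by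
  classical
  obtain ⟨P, hP⟩ := h
  choose Q' hQ1 hQ2 using fun m => dsub_weyl ζ hζ (P m : Module.End ℂ (MvPolynomial σ ℂ)) (P m).2
  refine ⟨∑ m ∈ P.support, Finsupp.single m ⟨Q' m, hQ1 m⟩, fun s => ?_⟩
  have h1 := congrArg (dsub ζ) (hP s)
  rw [map_mul, dsub_C, map_pow] at h1
  rw [h1, ← Finsupp.sum_finset_sum_index, Finsupp.sum, map_sum]
  · refine Finset.sum_congr rfl fun m _ => ?_
    rw [Finsupp.sum_single_index, map_smul, hQ2, map_pow]
    exact smul_zero _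
  · intro a
    exact smul_zero _
  · intro a b₁ b₂
    rw [Subalgebra.coe_add, LinearMap.add_apply, smul_add]

variable {ι : Type} [Fintype ι] [DecidableEq ι]

theorem dsub_diaP (c : ι → σ → ℝ) (e : ι → ℝ) (m : ι → ℕ) (w a : σ → ℕ) (ζ : σ → ℂ) (ε : σ → ℝ)
    (h : ∀ j, ζ j ^ w j = (ε j : ℂ)) :
    dsub ζ (diaP c e m w a) =
      C (∏ j, ζ j ^ a j) * diaP (fun i j => c i j * ε j) e m w a := by
  have h1 : ∀ i j, C ((c i j : ℝ) : ℂ) * (C (ζ j) * X j) ^ w j =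
      (C ((c i j * ε j : ℝ) : ℂ) * X j ^ w j : MvPolynomial σ ℂ) := by
    intro i j
    rw [mul_pow, ← mul_assoc, ← C_pow, h j, Complex.ofReal_mul, C_mul]
  have h2 : dsub ζ (diaP c e m w a) = (∏ j, (C (ζ j) * X j) ^ a j) *
      ∏ i, (∑ j, C ((c i j : ℝ) : ℂ) * (C (ζ j) * X j) ^ w j + C ((e i : ℝ) : ℂ)) ^ m i := by
    unfold diaP
    simp only [map_mul, map_prod, map_pow, map_add, map_sum, dsub_C, dsub_X]
  rw [h2]
  simp only [h1]
  unfold diaP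
  simp only [mul_pow, Finset.prod_mul_distrib, map_prod, map_pow]
  ring

/-- change of signs of the coordinates -/
noncomputable def Dg (ε : σ → ℝ) : (σ → ℝ) →ₗ[ℝ] (σ → ℝ) :=
  LinearMap.pi fun j => ε j • LinearMap.proj j

theorem Dg_apply (ε : σ → ℝ) (x : σ → ℝ) (j : σ) : Dg ε x j = ε j * x j := rfl

theorem Dg_Dg (ε : σ → ℝ) (hε : ∀ j, ε j * ε j = 1) (x : σ → ℝ) : Dg ε (Dg ε x) = x := by
  funext j
  rw [Dg_apply, Dg_apply, ← mul_assoc, hε, one_mul]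

theorem lf_Dg (c ε : σ → ℝ) (x : σ → ℝ) : lf (fun j => c j * ε j) x = lf c (Dg ε x) := by
  rw [lf_apply, lf_apply]
  refine Finset.sum_congr rfl fun j _ => ?_
  rw [Dg_apply]
  ring

/-- the sign of the form `k` under the change -/
def sgn (ι : Type) (ε : σ → ℝ) : ι ⊕ σ → ℝ := Sum.elim (fun _ => 1) ε

theorem LL_Dg (c : ι → σ → ℝ) (ε : σ → ℝ) (hε : ∀ j, ε j * ε j = 1) (k : ι ⊕ σ) (x : σ → ℝ) :
    LL (fun i j => c i j * ε j) k x = sgn ι ε k * LL c k (Dg ε x) := by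
  rcases k with i | j
  · change lf (fun j => c i j * ε j) x = 1 * lf (c i) (Dg ε x)
    rw [lf_Dg, one_mul]
  · change x j = ε j * (Dg ε x) j
    rw [Dg_apply, ← mul_assoc, hε, one_mul]

theorem sgn_sq (ε : σ → ℝ) (hε : ∀ j, ε j * ε j = 1) (k : ι ⊕ σ) : sgn ι ε k * sgn ι ε k = 1 := by
  rcases k with i | j
  · exact one_mul 1
  · exact hε j

theorem cdm_Dg (c : ι → σ → ℝ) (ε : σ → ℝ) (hε : ∀ j, ε j * ε j = 1) (B : Finset (ι ⊕ σ)) :
    cdm (LL (fun i j => c i j * ε j)) B = cdm (LL c) B := by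
  have hne : ∀ k : ι ⊕ σ, sgn ι ε k ≠ 0 := fun k h => by
    have := sgn_sq ε hε k
    rw [h, mul_zero] at this
    exact zero_ne_one this
  let D : (σ → ℝ) ≃ₗ[ℝ] (σ → ℝ) := LinearEquiv.ofInvolutive (Dg ε) (Dg_Dg ε hε)
  have h1 : Zr (LL c) ⊤ B = (Zr (LL (fun i j => c i j * ε j)) ⊤ B).map (D : (σ → ℝ) →ₗ[ℝ] (σ → ℝ)) := by
    ext x
    rw [mem_Zr, Submodule.mem_map]
    constructor
    · rintro ⟨-, h⟩
      refine ⟨Dg ε x, mem_Zr.2 ⟨Submodule.mem_top, fun k hk => ?_⟩, Dg_Dg ε hε x⟩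
      rw [LL_Dg c ε hε, Dg_Dg ε hε, h k hk, mul_zero]
    · rintro ⟨y, hy, rfl⟩
      refine ⟨Submodule.mem_top, fun k hk => ?_⟩
      have h2 := (mem_Zr.1 hy).2 k hk
      rw [LL_Dg c ε hε] at h2
      exact (mul_eq_zero.1 h2).resolve_left (hne k)
  unfold cdm kp
  rw [h1, LinearEquiv.finrank_map_eq D]

end

/-- **Roots from light chambers**, without conditions on the signs. -/
theorem root_diag' (hSTAR : S_STAR) (hPUSH : S_PUSH) {n : ℕ} {ι : Type} [Fintype ι] [DecidableEq ι]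
    (c : ι → Fin (n + 1) → ℝ) (e : ι → ℝ) (m : ι → ℕ) (w a : Fin (n + 1) → ℕ)
    (hm : ∀ i, 0 < m i) (hw : ∀ j, 0 < w j) (p v0 : Fin (n + 1) → ℝ)
    (A : Finset (ι ⊕ Fin (n + 1)))
    (hAi : ∀ i, Sum.inl i ∈ A ↔ lf (c i) p + e i = 0)
    (hAj : ∀ j, Sum.inr j ∈ A ↔ (w j ≠ 1 ∨ a j ≠ 0) ∧ p j = 0)
    (h0 : ∀ k ∈ A, LL c k v0 ≠ 0) (hAn : A.Nonempty)
    (hN : 0 < ∑ k ∈ A, muf m w a k)
    (hν : 0 < cdm (LL c) A - ∑ k ∈ A, kaf ι w k)
    (hgood : ∀ x, (∀ k ∈ A, 0 ≤ LL c k v0 * LL c k x) → (∃ k ∈ A, LL c k x ≠ 0) →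
      ∀ B, B ⊆ A.filter (fun k => LL c k x = 0) → B.Nonempty →
        0 < cdm (LL c) B - ∑ k ∈ B, kaf ι w k ∧
        (cdm (LL c) A - ∑ k ∈ A, kaf ι w k) * ∑ k ∈ B, muf m w a k ≤
          (cdm (LL c) B - ∑ k ∈ B, kaf ι w k) * ∑ k ∈ A, muf m w a k)
    (b : Polynomial ℂ) (hb : IsBFunction (diaP c e m w a) b) :
    b.eval ((-((cdm (LL c) A - ∑ k ∈ A, kaf ι w k) / ∑ k ∈ A, muf m w a k) : ℝ) : ℂ) = 0 := by
  classical
  set ε : Fin (n + 1) → ℝ := fun j =>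
    if p j = 0 then (if v0 j < 0 then -1 else 1) else (if p j < 0 then -1 else 1) with hε
  have hcase : ∀ j, ε j = 1 ∨ ε j = -1 := by
    intro j
    rw [hε]
    simp only
    split_ifs <;> simp
  have hεsq : ∀ j, ε j * ε j = 1 := by
    intro j
    rcases hcase j with h | h <;> rw [h] <;> norm_num
  have hex : ∀ j, ∃ ζ : ℂ, ζ ≠ 0 ∧ ζ ^ w j = (ε j : ℂ) := by
    intro j
    rcases hcase j with h | h
    · exact ⟨1, one_ne_zero, by rw [h]; simp⟩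
    · obtain ⟨ζ, hζ⟩ := IsAlgClosed.exists_pow_nat_eq (-1 : ℂ) (hw j)
      refine ⟨ζ, ?_, by rw [h, hζ]; simp⟩
      rintro rfl
      rw [zero_pow (hw j).ne'] at hζ
      exact (neg_ne_zero.2 one_ne_zero) hζ.symm
  choose ζ hζ0 hζ1 using hex
  have hb1 := bfun_dsub ζ hζ0 _ b hb
  rw [dsub_diaP c e m w a ζ ε hζ1] at hb1
  have hK0 : (∏ j, ζ j ^ a j) ≠ 0 := Finset.prod_ne_zero_iff.2 fun j _ => pow_ne_zero _ (hζ0 j)
  have hb2 := bfun_scale _ _ (inv_ne_zero hK0) b hb1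
  rw [← mul_assoc, ← C_mul, inv_mul_cancel₀ hK0, C_1, one_mul] at hb2
  have hcd := fun B => cdm_Dg c ε hεsq B
  have hLL : ∀ k x, LL (fun i j => c i j * ε j) k (Dg ε x) = sgn ι ε k * LL c k x := by
    intro k x
    rw [LL_Dg c ε hεsq, Dg_Dg ε hεsq]
  have hsgn0 : ∀ k : ι ⊕ Fin (n + 1), sgn ι ε k ≠ 0 := fun k h => by
    have := sgn_sq ε hεsq k
    rw [h, mul_zero] at this
    exact zero_ne_one this
  have key := root_diag hSTAR hPUSH (fun i j => c i j * ε j) e m w a hm hw (Dg ε p) (Dg ε v0) A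
    ?_ ?_ ?_ ?_ ?_ hAn hN (by rw [hcd]; exact hν) ?_ b hb2
  · rw [hcd] at key
    exact key
  · intro i
    rw [hAi, lf_Dg, Dg_Dg ε hεsq]
  · intro j
    rw [hAj, Dg_apply, mul_eq_zero]
    constructor
    · rintro ⟨h1, h2⟩
      exact ⟨h1, Or.inr h2⟩
    · rintro ⟨h1, h2⟩
      refine ⟨h1, h2.resolve_left ?_⟩
      rcases hcase j with h | h <;> rw [h] <;> norm_num
  · intro j _
    rw [Dg_apply, hε]
    simp only
    split_ifs with h1 h2 h3
    · rw [h1]; norm_num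
    · rw [h1]; norm_num
    · linarith
    · linarith [not_lt.1 h3]
  · intro k hk
    rw [hLL]
    exact mul_ne_zero (hsgn0 k) (h0 k hk)
  · intro j hj
    have h1 := ((hAj j).1 hj).2
    have h2 : v0 j ≠ 0 := h0 _ hj
    rw [Dg_apply, hε]
    simp only [h1, if_true]
    split_ifs with h3
    · linarith
    · rw [one_mul]
      exact lt_of_le_of_ne (not_lt.1 h3) h2.symm
  · intro x hx1 hx2 B hB hBn
    rw [hcd, hcd]
    have hx : ∀ k, LL (fun i j => c i j * ε j) k x = sgn ι ε k * LL c k (Dg ε x) :=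
      fun k => LL_Dg c ε hεsq k x
    refine hgood (Dg ε x) (fun k hk => ?_) ?_ B ?_ hBn
    · have h1 := hx1 k hk
      rw [hLL, hx] at h1
      have h2 : sgn ι ε k * LL c k v0 * (sgn ι ε k * LL c k (Dg ε x)) =
          (sgn ι ε k * sgn ι ε k) * (LL c k v0 * LL c k (Dg ε x)) := by ring
      rw [h2, sgn_sq ε hεsq, one_mul] at h1
      exact h1
    · obtain ⟨k, hk, h1⟩ := hx2
      refine ⟨k, hk, fun h2 => h1 ?_⟩
      rw [hx, h2, mul_zero]
    · intro k hk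
      have h1 := Finset.mem_filter.1 (hB hk)
      refine Finset.mem_filter.2 ⟨h1.1, ?_⟩
      have h2 := h1.2
      rw [hx] at h2
      exact (mul_eq_zero.1 h2).resolve_left (hsgn0 k)

end Pool.Agent.H73.DA
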