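import Pool.Agent.H73.DA.Flip

set_option autoImplicit false
set_option linter.unusedVariables false
set_option linter.unusedSectionVars false

/-! # From flats to chambers -/

namespace Pool.Agent.H73.DA

open MvPolynomial Module MeasureTheory Filter Topology Metric
open Pool.Agent.H73.RA
open Pool.Agent.H628R4.TP (IsBFunction)

section
variable {σ : Type} [Fintype σ] [DecidableEq σ] {ι : Type} [Fintype ι] [DecidableEq ι]

/-- the coefficients of the forms -/
def vec (c : ι → σ → ℝ) : ι ⊕ σ → σ → ℝ := Sum.elim c (fun j => Pi.single j 1)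

/-- the rank -/
noncomputable def rk (c : ι → σ → ℝ) (B : Finset (ι ⊕ σ)) : ℕ :=
  finrank ℝ (Submodule.span ℝ (vec c '' (B : Set (ι ⊕ σ))))

theorem LL_vec (c : ι → σ → ℝ) (k : ι ⊕ σ) (x : σ → ℝ) : LL c k x = ∑ j, vec c k j * x j := by
  rcases k with i | j
  · exact lf_apply _ _
  · change x j = ∑ j', (Pi.single j (1 : ℝ) : σ → ℝ) j' * x j'
    rw [Finset.sum_eq_single_of_mem j (Finset.mem_univ j) (fun j' _ hj' => by
      rw [Pi.single_eq_of_ne hj', zero_mul]), Pi.single_eq_same, one_mul]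

theorem rk_add (c : ι → σ → ℝ) (B : Finset (ι ⊕ σ)) :
    rk c B + kp (LL c) ⊤ B = finrank ℝ (σ → ℝ) := by
  let M : Matrix B σ ℝ := Matrix.of fun k j => vec c k.1 j
  have h1 : M.rank = rk c B := by
    have hr : Set.range M.row = vec c '' (B : Set (ι ⊕ σ)) := by
      ext v
      constructor
      · rintro ⟨k, rfl⟩
        exact ⟨k.1, k.2, rfl⟩
      · rintro ⟨k, hk, rfl⟩
        exact ⟨⟨k, hk⟩, rfl⟩
    rw [Matrix.rank_eq_finrank_span_row, hr]
    rfl
  have h2 : LinearMap.ker M.mulVecLin = Zr (LL c) ⊤ B := by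
    ext x
    rw [LinearMap.mem_ker, mem_Zr]
    constructor
    · intro h
      refine ⟨Submodule.mem_top, fun k hk => ?_⟩
      have h3 := congrFun h ⟨k, hk⟩
      rw [LL_vec]
      exact h3
    · rintro ⟨-, h⟩
      funext k
      have h3 := h k.1 k.2
      rw [LL_vec] at h3
      exact h3
  have h3 := LinearMap.finrank_range_add_finrank_ker M.mulVecLin
  rw [h2] at h3
  rw [← h1]
  exact h3

theorem cdm_rk (c : ι → σ → ℝ) (B : Finset (ι ⊕ σ)) : cdm (LL c) B = rk c B := by
  have h1 : ((rk c B + kp (LL c) ⊤ B : ℕ) : ℝ) = (finrank ℝ (σ → ℝ) : ℝ) := by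
    exact_mod_cast rk_add c B
  unfold cdm
  push_cast at h1
  linarith

theorem rk_rank (c : ι → σ → ℝ) : RankFn (rk c) where
  mono B C h := by
    have h1 := rk_add c B
    have h2 := rk_add c C
    have h3 := kp_mono (l := LL c) (W := ⊤) h
    omega
  sub B C := by
    have h1 := rk_add c B
    have h2 := rk_add c C
    have h3 := rk_add c (B ∪ C)
    have h4 := rk_add c (B ∩ C)
    have h5 := kp_super (l := LL c) (W := ⊤) B C
    omega
  card B := by
    unfold rk
    have h1 : vec c '' (B : Set (ι ⊕ σ)) = ((B.image (vec c) : Finset (σ → ℝ)) : Set (σ → ℝ)) := by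
      rw [Finset.coe_image]
    rw [h1]
    exact (finrank_span_finset_le_card _).trans Finset.card_image_le

/-- the walls are independent -/
theorem rk_walls (c : ι → σ → ℝ) (B : Finset (ι ⊕ σ)) (h : ∀ k ∈ B, ∃ j : σ, k = Sum.inr j) :
    rk c B = B.card := by
  refine le_antisymm ((rk_rank c).card B) ?_
  have hinj : Set.InjOn (vec c) (B : Set (ι ⊕ σ)) := by
    intro k hk k' hk' hkk
    obtain ⟨j, rfl⟩ := h k hk
    obtain ⟨j', rfl⟩ := h k' hk'
    change (Pi.single j (1 : ℝ) : σ → ℝ) = Pi.single j' 1 at hkk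
    by_contra hne
    have hjj : j ≠ j' := fun h => hne (by rw [h])
    have := congrFun hkk j
    rw [Pi.single_eq_same, Pi.single_eq_of_ne hjj] at this
    exact one_ne_zero this
  have hli : LinearIndependent ℝ (fun v : (vec c '' (B : Set (ι ⊕ σ)) : Set (σ → ℝ)) => (v : σ → ℝ)) := by
    have h1 := (Pi.basisFun ℝ σ).linearIndependent
    have h2 : vec c '' (B : Set (ι ⊕ σ)) ⊆ Set.range (Pi.basisFun ℝ σ) := by
      rintro v ⟨k, hk, rfl⟩
      obtain ⟨j, rfl⟩ := h k hk
      exact ⟨j, by rw [Pi.basisFun_apply]; rfl⟩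
    exact h1.linearIndepOn_id.mono h2
  unfold rk
  have hfin : Fintype (vec c '' (B : Set (ι ⊕ σ)) : Set (σ → ℝ)) :=
    ((B.finite_toSet).image _).fintype
  have h3 := finrank_span_set_eq_card (s := vec c '' (B : Set (ι ⊕ σ))) (by exact hli)
  rw [h3, Set.toFinset_card]
  have h4 : Fintype.card (vec c '' (B : Set (ι ⊕ σ)) : Set (σ → ℝ)) = B.card := by
    rw [Set.card_image_of_inj_on]
    · simp
    · intro x hx y hy hxy
      exact hinj hx hy hxy
  rw [h4]

theorem vec_ne (c : ι → σ → ℝ) (hc : ∀ i, c i ≠ 0) (k : ι ⊕ σ) : vec c k ≠ 0 := by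
  rcases k with i | j
  · exact hc i
  · intro h
    have := congrFun h j
    change (Pi.single j (1 : ℝ) : σ → ℝ) j = 0 at this
    rw [Pi.single_eq_same] at this
    exact one_ne_zero this

theorem rk_sing (c : ι → σ → ℝ) (hc : ∀ i, c i ≠ 0) (k : ι ⊕ σ) : 1 ≤ rk c {k} := by
  unfold rk
  rw [Finset.coe_singleton, Set.image_singleton, finrank_span_singleton (vec_ne c hc k)]

theorem nu_pos (c : ι → σ → ℝ) (hc : ∀ i, c i ≠ 0) (w : σ → ℕ) (hw : ∀ j, 0 < w j)
    (B : Finset (ι ⊕ σ)) (hB : B.Nonempty) : 0 < (rk c B : ℝ) - ∑ k ∈ B, kaf ι w k := by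
  classical
  set B' := B.filter (fun k => ∃ j : σ, k = Sum.inr j) with hB'
  have h1 : ∑ k ∈ B, kaf ι w k = ∑ k ∈ B', kaf ι w k := by
    rw [hB', Finset.sum_filter]
    refine Finset.sum_congr rfl fun k _ => ?_
    rcases k with i | j
    · simp [kaf]
    · simp
  have h2 : rk c B' = B'.card := rk_walls c B' fun k hk => (Finset.mem_filter.1 hk).2
  have h3 : rk c B' ≤ rk c B := (rk_rank c).mono _ _ (Finset.filter_subset _ _)
  rw [h1]
  rcases B'.eq_empty_or_nonempty with h4 | h4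
  · rw [h4, Finset.sum_empty, sub_zero]
    obtain ⟨k, hk⟩ := hB
    have h5 := rk_sing c hc k
    have h6 := (rk_rank c).mono {k} B (Finset.singleton_subset_iff.2 hk)
    have h7 : (1 : ℝ) ≤ rk c B := by exact_mod_cast h5.trans h6
    linarith
  · have h5 : ∑ k ∈ B', kaf ι w k < ∑ k ∈ B', (1 : ℝ) := by
      refine Finset.sum_lt_sum_of_nonempty h4 fun k hk => ?_
      obtain ⟨j, rfl⟩ := (Finset.mem_filter.1 hk).2
      change 1 - 1 / (w j : ℝ) < 1
      have : (0 : ℝ) < w j := by exact_mod_cast hw j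
      have : (0 : ℝ) < 1 / (w j : ℝ) := by positivity
      linarith
    rw [Finset.sum_const, nsmul_eq_mul, mul_one] at h5
    have h6 : ((B'.card : ℕ) : ℝ) ≤ rk c B := by
      rw [← h2]
      exact_mod_cast h3
    linarith

/-- the hyperplanes through the point `x`, and the coordinate hyperplanes of the walls -/
noncomputable def flatAt (c : ι → σ → ℝ) (e : ι → ℝ) (w a : σ → ℕ) (x : σ → ℝ) : Finset (ι ⊕ σ) :=
  haveI := Classical.decPred fun k : ι ⊕ σ => Sum.elim (fun i => ∑ j, c i j * x j + e i = 0)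
    (fun j => (w j ≠ 1 ∨ a j ≠ 0) ∧ x j = 0) k
  Finset.univ.filter fun k : ι ⊕ σ => Sum.elim (fun i => ∑ j, c i j * x j + e i = 0)
    (fun j => (w j ≠ 1 ∨ a j ≠ 0) ∧ x j = 0) k

theorem mem_flat_l (c : ι → σ → ℝ) (e : ι → ℝ) (w a : σ → ℕ) (x : σ → ℝ) (i : ι) :
    Sum.inl i ∈ flatAt c e w a x ↔ ∑ j, c i j * x j + e i = 0 := by
  simp [flatAt]

theorem mem_flat_r (c : ι → σ → ℝ) (e : ι → ℝ) (w a : σ → ℕ) (x : σ → ℝ) (j : σ) :
    Sum.inr j ∈ flatAt c e w a x ↔ (w j ≠ 1 ∨ a j ≠ 0) ∧ x j = 0 := by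
  simp [flatAt]

/-- irreducible -/
def Irrd (c : ι → σ → ℝ) (A : Finset (ι ⊕ σ)) : Prop :=
  A.Nonempty ∧ ∀ B, B ⊆ A → B.Nonempty → B ≠ A → rk c A < rk c B + rk c (A \ B)

end

/-- **Roots from irreducible flats whose heavy flats have a common element.** -/
theorem root_flat (hSTAR : S_STAR) (hPUSH : S_PUSH) {n : ℕ} {ι : Type} [Fintype ι] [DecidableEq ι]
    (c : ι → Fin (n + 1) → ℝ) (e : ι → ℝ) (m : ι → ℕ) (w a : Fin (n + 1) → ℕ)
    (hc : ∀ i, c i ≠ 0) (hm : ∀ i, 0 < m i) (hw : ∀ j, 0 < w j) (x : Fin (n + 1) → ℝ)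
    (hirr : Irrd c (flatAt c e w a x))
    (hN : 0 < NN m w a (flatAt c e w a x))
    (h : ι ⊕ Fin (n + 1)) (hh : h ∈ flatAt c e w a x)
    (hcom : ∀ B, ClosedIn (rk c) (flatAt c e w a x) B → B ≠ flatAt c e w a x →
      nu (rk c) w B * NN m w a (flatAt c e w a x) < nu (rk c) w (flatAt c e w a x) * NN m w a B →
      h ∈ B)
    (b : Polynomial ℂ) (hb : IsBFunction (diaP c e m w a) b) :
    b.eval ((-(nu (rk c) w (flatAt c e w a x) / NN m w a (flatAt c e w a x)) : ℝ) : ℂ) = 0 := by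
  classical
  set A := flatAt c e w a x with hA
  have hnu : ∀ B : Finset (ι ⊕ Fin (n + 1)), nu (rk c) w B = cdm (LL c) B - ∑ k ∈ B, kaf ι w k :=
    fun B => by rw [cdm_rk]; rfl
  have hNN : ∀ B : Finset (ι ⊕ Fin (n + 1)), NN m w a B = ∑ k ∈ B, muf m w a k := fun B => rfl
  have hmu : ∀ k, 0 ≤ muf m w a k := by
    rintro (i | j)
    · exact Nat.cast_nonneg _
    · exact div_nonneg (Nat.cast_nonneg _) (Nat.cast_nonneg _)
  have hka : ∀ k, 0 ≤ kaf ι w k := by
    rintro (i | j)
    · exact le_refl _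
    · change (0 : ℝ) ≤ 1 - 1 / (w j : ℝ)
      have h1 : (1 : ℝ) ≤ w j := by exact_mod_cast hw j
      have h2 : 1 / (w j : ℝ) ≤ 1 := by
        rw [div_le_one (by linarith)]; exact h1
      linarith
  have hnupos : ∀ B : Finset (ι ⊕ Fin (n + 1)), B.Nonempty → 0 < nu (rk c) w B := fun B hB =>
    nu_pos c hc w hw B hB
  obtain ⟨hAn, hirr'⟩ := hirr
  have hfr : finrank ℝ (⊤ : Submodule ℝ (Fin (n + 1) → ℝ)) = finrank ℝ (Fin (n + 1) → ℝ) := finrank_top _ _
  have hIrr : Irr (LL c) ⊤ A := by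
    refine ⟨?_, fun B hB hBn hBA => ?_⟩
    · obtain ⟨k, hk⟩ := hAn
      have h1 := rk_sing c hc k
      have h2 := (rk_rank c).mono {k} A (Finset.singleton_subset_iff.2 hk)
      have h3 := rk_add c A
      rw [hfr]
      omega
    · have h1 := hirr' B hB hBn hBA
      have h2 := rk_add c A
      have h3 := rk_add c B
      have h4 := rk_add c (A \ B)
      rw [hfr]
      omega
  obtain ⟨v0, -, h0, hch⟩ := exists_chamber (LL c) A.card ⊤ A rfl hIrr h hh
  have key := root_diag' hSTAR hPUSH c e m w a hm hw x v0 A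
    (fun i => by rw [hA, mem_flat_l, lf_apply]) (fun j => by rw [hA, mem_flat_r]) h0 hAn
    (by rw [← hNN]; exact hN) (by rw [← hnu]; exact hnupos A hAn) ?_ b hb
  · rw [hnu, hNN]
    exact key
  · intro y hy1 hy2 B hB hBn
    rw [← hnu, ← hnu, ← hNN, ← hNN]
    refine ⟨hnupos B hBn, ?_⟩
    have hBA : B ⊆ A := hB.trans (Finset.filter_subset _ _)
    -- the closure
    set B' := A.filter (fun k => ∀ z ∈ Zr (LL c) ⊤ B, LL c k z = 0) with hB'
    have hBB' : B ⊆ B' := fun k hk => Finset.mem_filter.2 ⟨hBA hk, fun z hz => (mem_Zr.1 hz).2 k hk⟩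
    have hZ : Zr (LL c) ⊤ B' = Zr (LL c) ⊤ B := by
      refine le_antisymm (Zr_mono hBB') fun z hz => mem_Zr.2 ⟨Submodule.mem_top, fun k hk => ?_⟩
      exact (Finset.mem_filter.1 hk).2 z hz
    have hkp : kp (LL c) ⊤ B' = kp (LL c) ⊤ B := by
      unfold kp
      rw [hZ]
    have hrk : rk c B' = rk c B := by
      have h1 := rk_add c B
      have h2 := rk_add c B'
      omega
    have hyB : y ∈ Zr (LL c) ⊤ B :=
      mem_Zr.2 ⟨Submodule.mem_top, fun k hk => (Finset.mem_filter.1 (hB hk)).2⟩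
    have hyB' : ∀ k ∈ B', LL c k y = 0 := fun k hk => (Finset.mem_filter.1 hk).2 y hyB
    have hcl : ClosedIn (rk c) A B' := by
      refine ⟨Finset.filter_subset _ _, fun k hk hr => Finset.mem_filter.2 ⟨hk, ?_⟩⟩
      have h1 : Zr (LL c) ⊤ (insert k B') = Zr (LL c) ⊤ B' := by
        refine Zr_eq (Finset.subset_insert k B') ?_
        have h2 := rk_add c B'
        have h3 := rk_add c (insert k B')
        omega
      intro z hz
      rw [← hZ, ← h1] at hz
      exact (mem_Zr.1 hz).2 k (Finset.mem_insert_self _ _)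
    obtain ⟨k1, hk1, hk1'⟩ := hy2
    have hne : B' ≠ A := by
      intro h1
      rw [← h1] at hk1
      exact hk1' (hyB' k1 hk1)
    have hnot : h ∉ B' := by
      intro h1
      exact hk1' (hch y Submodule.mem_top hy1 (hyB' h h1) k1 hk1)
    have h2 : ¬ (nu (rk c) w B' * NN m w a A < nu (rk c) w A * NN m w a B') := fun h3 =>
      hnot (hcom B' hcl hne h3)
    push Not at h2
    have h3 : NN m w a B ≤ NN m w a B' := by
      rw [hNN, hNN]
      exact Finset.sum_le_sum_of_subset_of_nonneg hBB' fun k _ _ => hmu k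
    have h4 : nu (rk c) w B' ≤ nu (rk c) w B := by
      have h5 : ∑ k ∈ B, kaf ι w k ≤ ∑ k ∈ B', kaf ι w k :=
        Finset.sum_le_sum_of_subset_of_nonneg hBB' fun k _ _ => hka k
      change (rk c B' : ℝ) - ∑ k ∈ B', kaf ι w k ≤ (rk c B : ℝ) - ∑ k ∈ B, kaf ι w k
      rw [hrk]
      linarith
    calc nu (rk c) w A * NN m w a B ≤ nu (rk c) w A * NN m w a B' :=
          mul_le_mul_of_nonneg_left h3 (hnupos A hAn).le
      _ ≤ nu (rk c) w B' * NN m w a A := h2
      _ ≤ nu (rk c) w B * NN m w a A := mul_le_mul_of_nonneg_right h4 hN.le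

/-- **Squarefree products of diagonal polynomials in at most three variables.** -/
theorem root_three (hSTAR : S_STAR) (hPUSH : S_PUSH) (hCOMB : S_COMB) {n : ℕ} (hn : n + 1 ≤ 3)
    {ι : Type} [Fintype ι] [DecidableEq ι]
    (c : ι → Fin (n + 1) → ℝ) (e : ι → ℝ) (w a : Fin (n + 1) → ℕ)
    (hc : ∀ i, c i ≠ 0) (hw : ∀ j, 0 < w j) (ha : ∀ j, a j ≤ 1)
    (hpair : ∀ i i', i ≠ i' → ∀ t : ℝ, ¬ (c i' = t • c i ∧ e i' = t * e i))
    (hwall : ∀ i j, (w j ≠ 1 ∨ a j ≠ 0) → ∀ t : ℝ, ¬ (c i = Pi.single j t ∧ e i = 0))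
    (x : Fin (n + 1) → ℝ) (hirr : Irrd c (flatAt c e w a x))
    (hN : 0 < NN (fun _ => 1) w a (flatAt c e w a x))
    (b : Polynomial ℂ) (hb : IsBFunction (diaP c e (fun _ => 1) w a) b) :
    b.eval ((-(nu (rk c) w (flatAt c e w a x) / NN (fun _ => 1) w a (flatAt c e w a x)) : ℝ) : ℂ) = 0 := by
  classical
  have hind : ∀ k ∈ flatAt c e w a x, ∀ k' ∈ flatAt c e w a x, k ≠ k' → ∀ t : ℝ,
      vec c k' ≠ t • vec c k := by
    rintro (i | j) hk (i' | j') hk' hne t hv
    · have h1 : c i' = t • c i := hv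
      rw [mem_flat_l] at hk hk'
      refine hpair i i' (fun h => hne (by rw [h])) t ⟨h1, ?_⟩
      have h2 : ∑ j, c i' j * x j = t * ∑ j, c i j * x j := by
        rw [Finset.mul_sum]
        refine Finset.sum_congr rfl fun j _ => ?_
        rw [h1, Pi.smul_apply, smul_eq_mul]
        ring
      rw [h2] at hk'
      have h3 : ∑ j, c i j * x j = -e i := by linarith
      rw [h3] at hk'
      linarith
    · -- `e_j' = t c_i`
      have h1 : (Pi.single j' (1 : ℝ) : Fin (n + 1) → ℝ) = t • c i := hv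
      have ht : t ≠ 0 := by
        rintro rfl
        rw [zero_smul] at h1
        have := congrFun h1 j'
        rw [Pi.single_eq_same] at this
        exact one_ne_zero this
      rw [mem_flat_l] at hk
      rw [mem_flat_r] at hk'
      have h2 : c i = Pi.single j' t⁻¹ := by
        funext j
        have h3 := congrFun h1 j
        rw [Pi.smul_apply, smul_eq_mul] at h3
        by_cases hj : j = j'
        · subst hj
          rw [Pi.single_eq_same] at h3 ⊢
          field_simp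
          linarith
        · rw [Pi.single_eq_of_ne hj] at h3 ⊢
          exact (mul_eq_zero.1 h3.symm).resolve_left ht
      refine hwall i j' hk'.1 t⁻¹ ⟨h2, ?_⟩
      have h4 : ∑ j, c i j * x j = 0 := by
        refine Finset.sum_eq_zero fun j _ => ?_
        rw [h2]
        by_cases hj : j = j'
        · subst hj
          rw [hk'.2, mul_zero]
        · rw [Pi.single_eq_of_ne hj, zero_mul]
      rw [h4] at hk
      linarith
    · have h1 : c i' = t • (Pi.single j (1 : ℝ) : Fin (n + 1) → ℝ) := hv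
      rw [mem_flat_r] at hk
      rw [mem_flat_l] at hk'
      have h2 : c i' = Pi.single j t := by
        rw [h1]
        funext j2
        by_cases hj : j2 = j
        · subst hj
          simp
        · simp [Pi.single_eq_of_ne hj]
      refine hwall i' j hk.1 t ⟨h2, ?_⟩
      have h4 : ∑ j, c i' j * x j = 0 := by
        refine Finset.sum_eq_zero fun j2 _ => ?_
        rw [h2]
        by_cases hj : j2 = j
        · subst hj
          rw [hk.2, mul_zero]
        · rw [Pi.single_eq_of_ne hj, zero_mul]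
      rw [h4] at hk'
      linarith
    · have h1 : (Pi.single j' (1 : ℝ) : Fin (n + 1) → ℝ) = t • (Pi.single j (1 : ℝ) : Fin (n + 1) → ℝ) := hv
      have hjj : j' ≠ j := fun h => hne (by rw [h])
      have := congrFun h1 j'
      rw [Pi.single_eq_same, Pi.smul_apply, Pi.single_eq_of_ne hjj, smul_zero] at this
      exact one_ne_zero this
  have hpair2 : ∀ k ∈ flatAt c e w a x, ∀ k' ∈ flatAt c e w a x, k ≠ k' → 2 ≤ rk c {k, k'} := by
    intro k hk k' hk' hne
    have hli : LinearIndependent ℝ ![vec c k, vec c k'] := by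
      rw [LinearIndependent.pair_iff' (vec_ne c hc k)]
      intro t ht
      exact hind k hk k' hk' hne t ht.symm
    have h1 := finrank_span_eq_card hli
    unfold rk
    have h2 : vec c '' (({k, k'} : Finset (ι ⊕ Fin (n + 1))) : Set (ι ⊕ Fin (n + 1))) =
        Set.range ![vec c k, vec c k'] := by
      rw [Finset.coe_pair, Set.image_pair, Matrix.range_cons, Matrix.range_cons, Matrix.range_empty,
        Set.union_empty]
      rfl
    rw [h2, h1]
    simp
  have hr3 : rk c (flatAt c e w a x) ≤ 3 := by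
    have h1 := rk_add c (flatAt c e w a x)
    have h2 : finrank ℝ (Fin (n + 1) → ℝ) = n + 1 := by simp
    omega
  obtain ⟨h, hh, hcom⟩ := hCOMB ι (Fin (n + 1)) (rk c) (rk_rank c) w a (flatAt c e w a x) hw
    (fun j hj hj1 => by
      rw [mem_flat_r] at hj
      have h1 := hj.1.resolve_left (fun h => h hj1)
      have h2 := ha j
      omega) ha (fun B _ h => rk_walls c B h) hpair2 (fun k _ => rk_sing c hc k) hirr.1 hirr.2 hr3 hN
  exact root_flat hSTAR hPUSH c e (fun _ => 1) w a hc (fun _ => one_pos) hw x hirr hN h hh hcom b hb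

end Pool.Agent.H73.DA
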